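import Pool.Agent.Helper49.SE.Asm2
import Pool.Graph.R_pool_sql_team_seeded_47a924f7.T6.H74.GC.FF

/-!
# Quotients of quasi-projective varieties: definitions and statements
-/

set_option autoImplicit false
set_option linter.unusedSectionVars false

namespace Pool.Agent.Helper49.SE

open MvPolynomial Pool.Agent.W559.Mg Pool.Agent.W559.Et Pool.Agent.Helper49.SQ

section defs

variable {k K : Type} [Field k] [Field K] [Algebra k K] {N : ℕ}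

/-- The point `q` of the chart `j` is in the open subset where one of the forms in `Sf` (of degree
`d`) is not zero. -/
def InV (A : Subalgebra k K) (z : Fin (N + 1) → K) (Sf : Finset K) (d : ℕ) (j : Fin (N + 1))
    (q : Ideal (Ch A z j)) : Prop :=
  ∃ f ∈ Sf, ∃ h : f / z j ^ d ∈ Ch A z j, (⟨f / z j ^ d, h⟩ : Ch A z j) ∉ q

variable {G : Type} [Group G]

/-- Near every prime ideal of `B` which does not contain `U` there are etale coordinates in `Z`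
whose span is stable under the inertia group. -/
def LLU (ρ : G →* (K ≃ₐ[k] K)) (B : Subalgebra k K) (Z U : Finset K) : Prop :=
  ∀ q : Ideal B, q.IsPrime → (∃ (z : K) (hz : z ∈ B), z ∈ U ∧ (⟨z, hz⟩ : B) ∉ q) →
    ∃ (f : K) (hf : f ∈ B), (⟨f, hf⟩ : B) ∉ q ∧
    ∃ (n : ℕ) (x : Fin n → lc B f hf),
      ((MvPolynomial.aeval x : MvPolynomial (Fin n) k →ₐ[k] lc B f hf).toRingHom).Etale ∧
      (∀ j, (x j : K) ∈ Z) ∧
      ∀ h : G, (∀ c, c ∈ B → ∀ hc : ρ h c - c ∈ B, (⟨ρ h c - c, hc⟩ : B) ∈ q) →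
        ρ h f = f ∧ ∀ j, ρ h (x j : K) ∈ Submodule.span k (Set.range fun j => (x j : K))

end defs

/-- Package SPREAD2: SpreadGStm with `B.FG` instead of smoothness. -/
def SpreadG2Stm : Prop := ∀ (k K : Type) [Field k] [Field K] [Algebra k K] (G : Type) [Group G]
  (ρ : G →* (K ≃ₐ[k] K)) (B : Subalgebra k K) (_ : B.FG) (q : Ideal B)
  (hq : q.IsPrime) (_ : LinG ρ (locR B q hq)),
  ∃ (f : K) (hf : f ∈ B) (n : ℕ) (y : Fin n → lc B f hf), (⟨f, hf⟩ : B) ∉ q ∧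
    ((aeval y : MvPolynomial (Fin n) k →ₐ[k] lc B f hf).toRingHom).Etale ∧
    ∀ g, InG ρ (locR B q hq) g →
      ∀ i, ρ g (y i : K) ∈ Submodule.span k (Set.range fun j => (y j : K))

/-- Package LOCAL2: LocalStm with `A.FG` instead of smoothness. -/
def Local2Stm : Prop := ∀ (k K : Type) [Field k] [Field K] [Algebra k K] (N : ℕ)
  (A : Subalgebra k K) (z : Fin (N + 1) → K) (G : Type) [Group G] [Finite G]
  (ρ : G →* (K ≃ₐ[k] K)), Act ρ A z → A.FG →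
  ∀ (j : Fin (N + 1)) (q : Ideal (Ch A z j)) (hq : q.IsPrime),
  LinG ρ (locR (Ch A z j) q hq) →
  ∃ (D : ℕ) (f : K) (hf : f ∈ Ch A z j), 0 < D ∧ (⟨f, hf⟩ : Ch A z j) ∉ q ∧
    Dat ρ A z j D (fun _ => True) (fun g => ∃ (q' : Ideal (Ch A z j)) (hq' : q'.IsPrime),
      (⟨f, hf⟩ : Ch A z j) ∉ q' ∧ InG ρ (locR (Ch A z j) q' hq') g) f hf

/-- Package FINITE2: FiniteStm for the open subset `InV` (from LOCAL2, FoMul). -/
def Finite2Stm : Prop := ∀ (k K : Type) [Field k] [Field K] [Algebra k K] (N : ℕ)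
  (A : Subalgebra k K) (z : Fin (N + 1) → K) (G : Type) [Group G] [Finite G]
  (ρ : G →* (K ≃ₐ[k] K)), Act ρ A z → A.FG → ∀ (Sf : Finset K) (d : ℕ), 0 < d →
  (∀ f ∈ Sf, f ∈ Fo A z d) →
  (∀ (j : Fin (N + 1)) (q : Ideal (Ch A z j)) (hq : q.IsPrime), InV A z Sf d j q →
    LinG ρ (locR (Ch A z j) q hq)) →
  ∃ (e : ℕ) (S : Finset K), 0 < e ∧ (∀ x ∈ S, x ∈ Fo A z (d * e)) ∧
    ∀ (j : Fin (N + 1)) (q : Ideal (Ch A z j)) (hq : q.IsPrime), InV A z Sf d j q →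
      ∃ (f : K) (hf : f ∈ Ch A z j), (⟨f, hf⟩ : Ch A z j) ∉ q ∧
        Dat ρ A z j (d * e) (fun x => x ∈ S) (fun g => InG ρ (locR (Ch A z j) q hq) g) f hf

/-- Package CONE2: ConeGStm for the open subset `InV`; `U` is the set of the `t c(f ^ e)`. -/
def ConeG2Stm : Prop := ∀ (k K K' : Type) [Field k] [Field K] [Algebra k K] [Field K']
  [Algebra k K'] (N : ℕ) (A : Subalgebra k K) (z : Fin (N + 1) → K) (G : Type) [Group G]
  [Finite G] (ρ : G →* (K ≃ₐ[k] K)) (_ : Act ρ A z) (_ : A.FG)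
  (Sf : Finset K) (d : ℕ) (_ : 0 < d) (_ : ∀ f ∈ Sf, f ∈ Fo A z d)
  (ρ' : G →* (K' ≃ₐ[k] K')) (c : K →ₐ[k] K') (t : K') (_ : Transcendental c.fieldRange t)
  (_ : ∀ g x, ρ' g (c x) = c (ρ g x)) (_ : ∀ g, ρ' g t = t) (e : ℕ) (_ : 0 < e)
  (Z Y U : Finset K') (_ : ∀ x ∈ Z, ∃ w ∈ Fo A z (d * e), x = t * c w)
  (_ : ∀ g, ∀ x ∈ Z, ρ' g x ∈ Z) (_ : ∀ g, ∀ x ∈ Y, ρ' g x ∈ Y)
  (_ : ∀ m : Fin (d * e) → Fin (N + 1), t * c (∏ i, z (m i)) ∈ Z)
  (_ : ∀ x ∈ U, ∃ f ∈ Sf, x = t * c (f ^ e)) (_ : Algebra.adjoin k (Y : Set K') = A.map c)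
  (_ : ∀ (j : Fin (N + 1)) (q : Ideal (Ch A z j)) (hq : q.IsPrime), InV A z Sf d j q →
      ∃ (f : K) (hf : f ∈ Ch A z j), (⟨f, hf⟩ : Ch A z j) ∉ q ∧
        Dat ρ A z j (d * e) (fun x => t * c x ∈ Z)
          (fun g => InG ρ (locR (Ch A z j) q hq) g) f hf)
  (B : Subalgebra k K') (_ : B = Algebra.adjoin k ((Y : Set K') ∪ (Z : Set K'))),
  LLU ρ' B Z U ∧
  ∀ q : Ideal B, q.IsPrime → (∃ (x : K') (hx : x ∈ B), x ∈ U ∧ (⟨x, hx⟩ : B) ∉ q) →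
    ∃ (j : Fin (N + 1)) (P : Ideal (Ch A z j)) (hP : P.IsPrime), InV A z Sf d j P ∧ ∀ g,
      (∀ b ∈ B, ∀ h : ρ' g b - b ∈ B, (⟨ρ' g b - b, h⟩ : B) ∈ q) →
        InG ρ (locR (Ch A z j) P hP) g

/-- Package CHG: the local rings of the open subset where `f` is not zero. -/
def ChgStm : Prop := ∀ (k K : Type) [Field k] [Field K] [Algebra k K] (N : ℕ)
  (A : Subalgebra k K) (z : Fin (N + 1) → K) (_ : ∀ i, z i ≠ 0) (d : ℕ) (f : K)
  (hf : f ∈ Fo A z d) (_ : 0 < d) (_ : f ≠ 0) (j : Fin (N + 1)) (q : Ideal (Ch A z j))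
  (hq : q.IsPrime) (h : f / z j ^ d ∈ Ch A z j) (_ : (⟨f / z j ^ d, h⟩ : Ch A z j) ∉ q),
  ∃ (Q : Ideal (QK A z hf)) (hQ : Q.IsPrime), locR (QK A z hf) Q hQ = locR (Ch A z j) q hq

/-- Package TAME: tame inertia groups are linear in etale coordinates (Maschke). -/
def TameStm : Prop := ∀ (k K : Type) [Field k] [IsAlgClosed k] [Field K] [Algebra k K] (G : Type)
  [Group G] [Finite G] (ρ : G →* (K ≃ₐ[k] K)) (B : Subalgebra k K) (_ : Algebra.Smooth k B)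
  (m : Ideal B) (hm : m.IsMaximal) (H : Subgroup G)
  (_ : ∀ g, g ∈ H ↔ InG ρ (locR B m hm.isPrime) g) (_ : (Nat.card H : k) ≠ 0),
  LinG ρ (locR B m hm.isPrime)

/-- Package CLOSED: closed points suffice. -/
def ClosedStm : Prop := ∀ (k K : Type) [Field k] [Field K] [Algebra k K] (G : Type) [Group G]
  [Finite G] (ρ : G →* (K ≃ₐ[k] K)) (B : Subalgebra k K) (_ : B.FG)
  (_ : ∀ g, ∀ b ∈ B, ρ g b ∈ B) (q m : Ideal B) (hq : q.IsPrime) (hm : m.IsMaximal) (_ : q ≤ m),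
  (∀ g, InG ρ (locR B q hq) g → InG ρ (locR B m hm.isPrime) g) ∧
  (LinG ρ (locR B m hm.isPrime) → LinG ρ (locR B q hq))

section glob

open AlgebraicGeometry CategoryTheory Pool.Agent.T6.H74.GC

/-- Package GLOB2 (from RES, instead of GLOB). -/
def Glob2Stm : Prop := ∀ (k K : Type) [Field k] [Field K] [Algebra k K] (ι : Type) [Finite ι]
  (z : ι → K) (_ : ∀ i, z i ≠ 0) (T : Set ι) (_ : T.Nonempty)
  (X : Scheme.{0}) (f : X ⟶ Spec (CommRingCat.of k)) [QuasiCompact f] [IsSeparated f]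
  [AlgebraicGeometry.IsIntegral X] (φ : X.functionField ≃+* K) (_ : IsLinear f φ)
  (_ : ∀ x : X, ∃ U : X.Opens, IsAffineOpen U ∧ x ∈ U ∧ ∃ R : Subalgebra k K,
    functionsOn φ U = R ∧
    (∀ V : ValuationSubring K, (∀ a ∈ R, a ∈ V) → ∃ t ∈ T, ∀ i, z i / z t ∈ V) ∧
    ∀ t ∈ T, Algebra.Smooth k ↥(Algebra.adjoin k (Set.range fun i => z i / z t) ⊔ R)),
  ∃ (Y : Scheme.{0}) (π : Y ⟶ X), AlgebraicGeometry.IsIntegral Y ∧
      AlgebraicGeometry.IsProper π ∧ AlgebraicGeometry.Smooth (π ≫ f) ∧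
      ∃ U : X.Opens, Dense (U : Set X) ∧ IsIso (π ∣_ U)

end glob

end Pool.Agent.Helper49.SE
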