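import Pool.Agent.Helper49.SE.El0
import Pool.Agent.Helper49.SQ.PR

/-!
# The field of the cone
-/

set_option autoImplicit false
set_option linter.unusedSectionVars false

namespace Pool.Agent.Helper49.SE

open Finset Pool.Agent.W559.Mg Pool.Agent.Helper49.SQ Pool.Agent.Helper82.SQ

/-- The data of the cone over a variety with function field `K`. -/
structure CK (k K K' : Type) [Field k] [Field K] [Algebra k K] [Field K'] [Algebra k K'] where
  cK : Polynomial K →ₐ[k] K'
  cKi : Function.Injective cK
  fK : ∀ x : K', ∃ a b, b ≠ 0 ∧ x = cK a / cK b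
  Θ : (K ≃ₐ[k] K) →* (K' ≃ₐ[k] K')
  hΘ : ∀ g f, Θ g (cK f) = cK (Pm k K g f)

/-- The data exist. -/
noncomputable def mkCK (k K : Type) [Field k] [Field K] [Algebra k K] :
    CK k K (FractionRing (Polynomial K)) where
  cK := IsScalarTower.toAlgHom k (Polynomial K) (FractionRing (Polynomial K))
  cKi := IsFractionRing.injective (Polynomial K) (FractionRing (Polynomial K))
  fK x := by
    obtain ⟨a, b, hb, rfl⟩ := IsFractionRing.div_surjective (A := Polynomial K) x
    exact ⟨a, b, nonZeroDivisors.ne_zero hb, rfl⟩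
  Θ := (IsFractionRing.fieldEquivOfAlgEquivHom k (FractionRing (Polynomial K))).comp (Pm k K)
  hΘ g f := IsFractionRing.fieldEquivOfAlgEquiv_algebraMap k (FractionRing (Polynomial K))
    (FractionRing (Polynomial K)) ((Pm k K) g) f

namespace CK

variable {k K K' : Type} [Field k] [Field K] [Algebra k K] [Field K'] [Algebra k K']
  (D : CK k K K')

/-- The inclusion of the field of degree zero. -/
noncomputable def c : K →ₐ[k] K' := D.cK.comp Polynomial.CAlgHom

lemma c_apply (m : K) : D.c m = D.cK (Polynomial.C m) := rfl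

/-- The parameter. -/
noncomputable def t : K' := D.cK Polynomial.X

lemma ci : Function.Injective D.c := D.c.injective

lemma t0 : D.t ≠ 0 := by
  intro h
  exact Polynomial.X_ne_zero (R := K) (D.cKi (by rw [map_zero]; exact h))

lemma Θc (g : K ≃ₐ[k] K) (m : K) : D.Θ g (D.c m) = D.c (g m) := by
  rw [c_apply, D.hΘ, Pm_apply, Polynomial.map_C]
  rfl

lemma Θt (g : K ≃ₐ[k] K) : D.Θ g D.t = D.t := by
  rw [t, D.hΘ, Pm_apply, Polynomial.map_X]

lemma tr : Transcendental D.c.fieldRange D.t := by
  have h := Polynomial.transcendental_X K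
  let f : K →+* D.c.fieldRange := (D.c.rangeRestrict : K →+* D.c.range)
  refine h.ringHom_of_comp_eq (f : K →+* D.c.fieldRange) (D.cK : Polynomial K →+* K') ?_ D.cKi ?_
  · rintro ⟨_, ⟨m, rfl⟩⟩
    exact ⟨m, rfl⟩
  · ext m
    rfl

lemma cK_monomial (n : ℕ) (a : K) : D.cK (Polynomial.monomial n a) = D.c a * D.t ^ n := by
  rw [← Polynomial.C_mul_X_pow_eq_monomial, map_mul, map_pow]
  rfl

/-- The field is generated by the constants and the parameter. -/
lemma mem_of (Q : IntermediateField k K') (hc : ∀ x, D.c x ∈ Q) (ht : D.t ∈ Q) (x : K') :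
    x ∈ Q := by
  have hQK : ∀ f : Polynomial K, D.cK f ∈ Q := by
    intro f
    induction f using Polynomial.induction_on' with
    | add p q hp hq => rw [map_add]; exact Q.add_mem hp hq
    | monomial n a =>
      rw [cK_monomial]
      exact Q.mul_mem (hc a) (pow_mem ht n)
  obtain ⟨a, b, -, rfl⟩ := D.fK x
  exact div_mem (hQK a) (hQK b)

end CK

end Pool.Agent.Helper49.SE
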