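import Pool.Agent.Helper49.SE.Mod
import Pool.Agent.Helper49.SE.Cd
import Pool.Agent.Helper59.SE.FO

/-!
# Homogeneous elements of the cone
-/

set_option autoImplicit false
set_option linter.unusedSectionVars false

namespace Pool.Agent.Helper49.SE

open Finset MvPolynomial Pool.Agent.W559.Mg Pool.Agent.W559.Et Pool.Agent.Helper49.PQ Pool.Agent.Helper49.SQ
  Pool.Agent.H920R2 Pool.Agent.Helper59.SE

/-- Etale coordinates are not zero. -/
lemma et_ne {k B : Type} [Field k] [CommRing B] [IsDomain B] [Algebra k B] {n : ℕ} (y : Fin n → B)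
    (h : ((aeval y : MvPolynomial (Fin n) k →ₐ[k] B).toRingHom).Etale) (i : Fin n) : y i ≠ 0 := by
  intro h0
  have h1 : ((aeval y : MvPolynomial (Fin n) k →ₐ[k] B).toRingHom).Flat :=
    ((RingHom.etale_iff_formallyUnramified_and_smooth _).1 h).2.flat
  let _ : Algebra (MvPolynomial (Fin n) k) B :=
    ((aeval y : MvPolynomial (Fin n) k →ₐ[k] B).toRingHom).toAlgebra
  have h2 : Module.Flat (MvPolynomial (Fin n) k) B := h1
  have h5 : (X i : MvPolynomial (Fin n) k) ∈ nonZeroDivisors (MvPolynomial (Fin n) k) :=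
    mem_nonZeroDivisors_of_ne_zero (MvPolynomial.X_ne_zero i)
  have h3 : IsSMulRegular B (X i : MvPolynomial (Fin n) k) :=
    Module.Flat.isSMulRegular_of_nonZeroDivisors h5
  have h4 : (X i : MvPolynomial (Fin n) k) • (1 : B) = (X i : MvPolynomial (Fin n) k) • (0 : B) := by
    rw [smul_zero, Algebra.smul_def, mul_one]
    change (aeval y : MvPolynomial (Fin n) k →ₐ[k] B) (X i) = 0
    rw [aeval_X, h0]
  exact one_ne_zero (h3 h4)

section fo

variable {k K : Type} [Field k] [Field K] [Algebra k K] {N : ℕ}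

lemma fo_pow' (A : Subalgebra k K) (z : Fin (N + 1) → K) {d : ℕ} {x : K} (hx : x ∈ Fo A z d)
    (n : ℕ) : x ^ n ∈ Fo A z (d * n) := by
  induction n with
  | zero => simpa using fo_zero A z A.one_mem
  | succ n ih =>
    rw [pow_succ, Nat.mul_succ]
    exact fo_mul A z ih hx

variable (A : Subalgebra k K) (z : Fin (N + 1) → K)

/-- The polynomials with coefficients which are forms. -/
noncomputable def PS (E : ℕ) : Subalgebra k (Polynomial K) where
  carrier := {P | ∀ m, P.coeff m ∈ Fo A z (m * E)}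
  mul_mem' := by
    intro P Q hP hQ m
    rw [Polynomial.coeff_mul]
    refine Submodule.sum_mem _ fun x hx => ?_
    have h1 := fo_mul A z (hP x.1) (hQ x.2)
    rwa [← add_mul, Finset.HasAntidiagonal.mem_antidiagonal.1 hx] at h1
  add_mem' := by
    intro P Q hP hQ m
    rw [Polynomial.coeff_add]
    exact Submodule.add_mem _ (hP m) (hQ m)
  algebraMap_mem' r := by
    intro m
    rw [Polynomial.algebraMap_apply, Polynomial.coeff_C]
    split_ifs with h
    · subst h
      rw [zero_mul]
      exact fo_zero A z (A.algebraMap_mem r)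
    · exact Submodule.zero_mem _

end fo

section cone

variable {k K K' : Type} [Field k] [Field K] [Algebra k K] [Field K'] [Algebra k K'] {N : ℕ}
  (D : CK k K K') {A : Subalgebra k K} {z : Fin (N + 1) → K} {E : ℕ} {Z Y : Set K'}
  {B : Subalgebra k K'}

/-- The homogeneous elements of the cone are forms. -/
lemma form_of_mem (hB : B = Algebra.adjoin k (Y ∪ Z)) (hY : ∀ y ∈ Y, ∃ a ∈ A, y = D.c a)
    (hZ : ∀ x ∈ Z, ∃ w ∈ Fo A z E, x = D.t * D.c w) {b : K'} (hb : b ∈ B) {m : ℕ} {y : K}
    (h : b = D.t ^ m * D.c y) : y ∈ Fo A z (m * E) := by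
  have h1 : B ≤ (PS A z E).map D.cK := by
    rw [hB]
    refine Algebra.adjoin_le ?_
    rintro x (hx | hx)
    · obtain ⟨a, ha, rfl⟩ := hY x hx
      refine ⟨Polynomial.C a, fun m => ?_, rfl⟩
      rw [Polynomial.coeff_C]
      split_ifs with h
      · subst h
        rw [zero_mul]
        exact fo_zero A z ha
      · exact Submodule.zero_mem _
    · obtain ⟨w, hw, rfl⟩ := hZ x hx
      refine ⟨Polynomial.monomial 1 w, fun m => ?_, ?_⟩
      · rw [Polynomial.coeff_monomial]
        split_ifs with h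
        · subst h
          rwa [one_mul]
        · exact Submodule.zero_mem _
      · change D.cK (Polynomial.monomial 1 w) = _
        rw [D.cK_monomial, pow_one, mul_comm]
  obtain ⟨P, hP, hPb⟩ := h1 hb
  have h2 : P = Polynomial.monomial m y := by
    apply D.cKi
    rw [D.cK_monomial]
    change D.cK P = b at hPb
    rw [hPb, h, mul_comm]
  have h3 := hP m
  rwa [h2, Polynomial.coeff_monomial, if_pos rfl] at h3

/-- Forms are elements of the cone. -/
lemma mem_of_form (hc : ∀ a ∈ A, D.c a ∈ B)
    (hm : ∀ m : Fin E → Fin (N + 1), D.t * D.c (∏ i, z (m i)) ∈ B) (m : ℕ) {y : K}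
    (hy : y ∈ Fo A z (m * E)) : D.t ^ m * D.c y ∈ B := by
  unfold Fo at hy
  induction hy using Submodule.span_induction with
  | mem x hx =>
    obtain ⟨a, ha, μ, rfl⟩ := hx
    have h1 : ∏ i, z (μ i) = ∏ j : Fin m, ∏ i : Fin E, z (μ (finProdFinEquiv (j, i))) := by
      rw [← Fintype.prod_prod_type' fun (j : Fin m) (i : Fin E) => z (μ (finProdFinEquiv (j, i)))]
      exact (Fintype.prod_equiv finProdFinEquiv _ _ fun x => rfl).symm
    have h2 : D.t ^ m * D.c (a * ∏ i, z (μ i)) =
        D.c a * ∏ j : Fin m, (D.t * D.c (∏ i : Fin E, z (μ (finProdFinEquiv (j, i))))) := by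
      rw [h1, Finset.prod_mul_distrib, Finset.prod_const, Finset.card_univ, Fintype.card_fin,
        map_mul, map_prod]
      ring
    rw [h2]
    exact B.mul_mem (hc a ha) (B.prod_mem fun j _ => hm _)
  | zero =>
    rw [map_zero, mul_zero]
    exact B.zero_mem
  | add x y _ _ hx hy =>
    rw [map_add, mul_add]
    exact B.add_mem hx hy
  | smul r x _ hx =>
    rw [map_smul, mul_smul_comm]
    exact B.smul_mem hx r

end cone

end Pool.Agent.Helper49.SE
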