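import Pool.Agent.Helper49.SE.Asm1

/-!
# Models which dominate open subsets of the quotient
-/

set_option autoImplicit false
set_option linter.unusedSectionVars false

namespace Pool.Agent.Helper49.SE

open Finset Pool.Agent.W559.Mg Pool.Agent.W559.Et Pool.Agent.Helper49.PQ Pool.Agent.Helper49.SQ
  Pool.Agent.H920R2 Pool.Agent.Helper59.SE

/-- Homogeneous coordinates of a smooth scheme, projective over the base `A₀`, which dominates the
open subsets with rings of functions in `ℛ`. -/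
def PMR {k F : Type} [Field k] [Field F] [Algebra k F] (A₀ : Subalgebra k F)
    (ℛ : Set (Subalgebra k F)) : Prop :=
  ∃ (I : Type) (_ : Finite I) (w : I → F) (J : Set I), J.Nonempty ∧ (∀ i, w i ≠ 0) ∧
    (∀ V : ValuationSubring F, (∀ a ∈ A₀, a ∈ V) → ∃ t ∈ J, ∀ i, w i / w t ∈ V) ∧
    ∀ t ∈ J, ∀ R ∈ ℛ, Algebra.Smooth k ↥(Algebra.adjoin k (Set.range fun i => w i / w t) ⊔ R)

/-- Transport by isomorphisms. -/
lemma PMR.iso {k F F' : Type} [Field k] [Field F] [Algebra k F] [Field F'] [Algebra k F']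
    {A₀ : Subalgebra k F} {ℛ : Set (Subalgebra k F)} (h : PMR A₀ ℛ) (e : F ≃ₐ[k] F')
    {A₁ : Subalgebra k F'} (hA : A₁.comap (e : F →ₐ[k] F') = A₀) {ℛ' : Set (Subalgebra k F')}
    (hR : ∀ R ∈ ℛ', R.comap (e : F →ₐ[k] F') ∈ ℛ) : PMR A₁ ℛ' := by
  obtain ⟨I, hI, w, J, hJ, hw, hV, hs⟩ := h
  refine ⟨I, hI, fun i => e (w i), J, hJ, fun i => (map_ne_zero e).2 (hw i), ?_, ?_⟩
  · intro V hV'
    obtain ⟨t, ht, hti⟩ := hV (V.comap (e : F →+* F')) (by
      intro a ha
      rw [← hA] at ha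
      exact hV' _ ha)
    refine ⟨t, ht, fun i => ?_⟩
    have h1 := hti i
    rw [ValuationSubring.mem_comap] at h1
    have h2 : e (w i) / e (w t) = e (w i / w t) := (map_div₀ e _ _).symm
    change e (w i) / e (w t) ∈ V
    rw [h2]
    exact h1
  · intro t ht R hRR
    have h1 := hs t ht _ (hR R hRR)
    have h2 : (Algebra.adjoin k (Set.range fun i => w i / w t) ⊔
        R.comap (e : F →ₐ[k] F')).map (e : F →ₐ[k] F') =
        Algebra.adjoin k (Set.range fun i => e (w i) / e (w t)) ⊔ R := by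
      rw [Algebra.map_sup, AlgHom.map_adjoin]
      congr 1
      · congr 1
        ext x
        constructor
        · rintro ⟨_, ⟨i, rfl⟩, rfl⟩
          exact ⟨i, (map_div₀ e _ _).symm⟩
        · rintro ⟨i, rfl⟩
          exact ⟨_, ⟨i, rfl⟩, map_div₀ e _ _⟩
      · apply le_antisymm
        · rintro _ ⟨x, hx, rfl⟩
          exact hx
        · intro x hx
          refine ⟨e.symm x, ?_, e.apply_symm_apply x⟩
          change e (e.symm x) ∈ R
          rwa [e.apply_symm_apply]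
    rw [← h2]
    exact Algebra.Smooth.of_equiv (Subalgebra.equivMapOfInjective _ (e : F →ₐ[k] F') e.injective)

section qk

variable {k K : Type} [Field k] [Field K] [Algebra k K] {N : ℕ}

/-- The functions on the open subset where the form `h` of degree `d` is not zero. -/
noncomputable def QK (A : Subalgebra k K) (z : Fin (N + 1) → K) {d : ℕ} {h : K}
    (hh : h ∈ Fo A z d) : Subalgebra k K where
  carrier := {y | ∃ n, y * h ^ n ∈ Fo A z (d * n)}
  mul_mem' := by
    rintro x y ⟨n, hn⟩ ⟨m, hm⟩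
    refine ⟨n + m, ?_⟩
    have h1 := fo_mul A z hn hm
    rwa [show x * h ^ n * (y * h ^ m) = x * y * h ^ (n + m) by ring, ← mul_add] at h1
  add_mem' := by
    rintro x y ⟨n, hn⟩ ⟨m, hm⟩
    refine ⟨n + m, ?_⟩
    have h1 := fo_mul A z hn (fo_pow' A z hh m)
    have h2 := fo_mul A z hm (fo_pow' A z hh n)
    rw [← mul_add] at h1 h2
    rw [add_comm m n] at h2
    have h3 := Submodule.add_mem _ h1 h2
    rwa [show x * h ^ n * h ^ m + y * h ^ m * h ^ n = (x + y) * h ^ (n + m) by ring] at h3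
  algebraMap_mem' r := ⟨0, by
    rw [pow_zero, mul_one, mul_zero]
    exact fo_zero A z (A.algebraMap_mem r)⟩

lemma mem_QK {A : Subalgebra k K} {z : Fin (N + 1) → K} {d : ℕ} {h : K} {hh : h ∈ Fo A z d}
    {y : K} : y ∈ QK A z hh ↔ ∃ n, y * h ^ n ∈ Fo A z (d * n) := Iff.rfl

lemma le_QK {A : Subalgebra k K} {z : Fin (N + 1) → K} {d : ℕ} {h : K} (hh : h ∈ Fo A z d) :
    A ≤ QK A z hh := fun a ha => ⟨0, by
  rw [pow_zero, mul_one, mul_zero]
  exact fo_zero A z ha⟩

variable {K' : Type} [Field K'] [Algebra k K']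

lemma comap_symm (c : K →ₐ[k] K') (F : IntermediateField k K) (S : Subalgebra k K) :
    (S.comap F.val).comap ((F.equivMap c).symm : (F.map c) →ₐ[k] F) =
      (S.map c).comap (F.map c).val := by
  ext x
  obtain ⟨w, rfl⟩ := (F.equivMap c).surjective x
  have h7 : (F.equivMap c).symm ((F.equivMap c) w) = w := AlgEquiv.symm_apply_apply _ _
  constructor
  · intro hx
    change (((F.equivMap c).symm ((F.equivMap c) w) : F) : K) ∈ S at hx
    rw [h7] at hx
    exact ⟨_, hx, rfl⟩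
  · rintro ⟨y, hy, hyw⟩
    change (((F.equivMap c).symm ((F.equivMap c) w) : F) : K) ∈ S
    rw [h7]
    have h6 : c y = c w := hyw
    rwa [← c.injective h6]

end qk

section dom

variable {k K K' : Type} [Field k] [Field K] [Algebra k K] [Field K'] [Algebra k K'] {N : ℕ}
  [DecidableEq K'] (D : CK k K K') {A : Subalgebra k K} {z : Fin (N + 1) → K} {E : ℕ}
  {Z Y : Finset K'} {B : Subalgebra k K'} {G : Type} [Group G] {ρ : G →* (K ≃ₐ[k] K)}
  {F : IntermediateField k K}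

/-- The models dominate the open subsets of the quotient. -/
theorem pmr_of_pmg (hE : 0 < E) (hB : B = Algebra.adjoin k ((Y : Set K') ∪ (Z : Set K')))
    (hY : ∀ y ∈ Y, ∃ a ∈ A, y = D.c a)
    (hZ : ∀ x ∈ Z, ∃ w ∈ Fo A z E, x = D.t * D.c w) (hc : ∀ a ∈ A, D.c a ∈ B)
    (hm : ∀ m : Fin E → Fin (N + 1), D.t * D.c (∏ i, z (m i)) ∈ B)
    (hF : ∀ a, a ∈ F ↔ ∀ g, ρ g a = a) {y0 : K} (hy0 : y0 ≠ 0)
    (h : PMG ((A.map D.c).comap (F.map D.c).val)
      (fun p : {p : ℕ × K' // IH (D.Θ.comp ρ) B D.c.fieldRange (D.t * D.c y0) p.1 p.2} =>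
        We B Z (F.map D.c) p.1.2)) :
    PMR ((A.map D.c).comap (F.map D.c).val)
      {R | ∃ (d : ℕ) (f : K) (hf : f ∈ Fo A z d), 0 < d ∧ f ≠ 0 ∧ (∀ g, ρ g f = f) ∧
        R = ((QK A z hf).map D.c).comap (F.map D.c).val} := by
  set A₀ := (A.map D.c).comap (F.map D.c).val with hA₀
  obtain ⟨I, hI, w, J, hw, hws, hwV, hwW⟩ := h
  obtain ⟨t0, ht0, -⟩ := hwV ⊤ fun _ _ => trivial
  refine ⟨I, hI, w, J, ⟨t0, ht0⟩, hw, hwV, ?_⟩
  rintro t ht R ⟨d, f, hf, hd, hf0, hfi, rfl⟩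
  obtain ⟨⟨⟨δ, e⟩, he⟩, hW⟩ := hwW t ht
  have hsm := hws t ht
  obtain ⟨hδ, he0, heB, hei, heh⟩ := he
  change 0 < δ at hδ
  change e ≠ 0 at he0
  change e ∈ B at heB
  change ∀ g, D.Θ (ρ g) e = e at hei
  change e / (D.t * D.c y0) ^ δ ∈ D.c.fieldRange at heh
  change ∀ x ∈ We B Z (F.map D.c) e, x ∈ cw A₀ w t at hW
  have hty0 : D.t * D.c y0 ≠ 0 := mul_ne_zero D.t0 ((map_ne_zero D.c).2 hy0)
  -- the form
  obtain ⟨ψ, hψ⟩ : ∃ ψ, e = D.t ^ δ * D.c ψ := by
    obtain ⟨x0, hx0⟩ := heh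
    refine ⟨y0 ^ δ * x0, ?_⟩
    have h1 : D.c x0 = e / (D.t * D.c y0) ^ δ := hx0
    rw [map_mul, map_pow, h1, mul_pow]
    rw [mul_pow] at h1
    have h2 : D.t ^ δ * D.c y0 ^ δ ≠ 0 := by
      rw [← mul_pow]
      exact pow_ne_zero _ hty0
    rw [← mul_assoc, mul_div_cancel₀ _ h2]
  have hψ0 : ψ ≠ 0 := by
    rintro rfl
    rw [map_zero, mul_zero] at hψ
    exact he0 hψ
  have hψF : ψ ∈ Fo A z (δ * E) := form_of_mem D hB hY hZ heB hψ
  have hψi : ∀ g, ρ g ψ = ψ := by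
    intro g
    have h1 := hei g
    rw [hψ, map_mul, map_pow, D.Θt, D.Θc] at h1
    exact D.ci (mul_left_cancel₀ (pow_ne_zero _ D.t0) h1)
  have hform : ∀ (m : ℕ) (y : K), y ∈ Fo A z (m * E) → D.t ^ m * D.c y ∈ B := fun m y hy =>
    mem_of_form D hc hm m hy
  -- the function `u`
  let uK : K := f ^ (E * δ) / ψ ^ d
  have huK0 : uK ≠ 0 := div_ne_zero (pow_ne_zero _ hf0) (pow_ne_zero _ hψ0)
  have huKF : uK ∈ F := by
    rw [hF]
    intro g
    simp only [uK]
    rw [map_div₀, map_pow, map_pow, hfi, hψi]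
  let u : F.map D.c := ⟨D.c uK, ⟨uK, huKF, rfl⟩⟩
  have hu0 : u ≠ 0 := fun h0 => huK0 (D.ci (by
    rw [map_zero]
    exact congrArg Subtype.val h0))
  -- values
  have hval : ∀ (m : ℕ) (y : K), y ∈ Fo A z (d * δ * m * E) → ∀ (Γ : Type)
      [LinearOrderedCommGroupWithZero Γ] (v : Valuation K' Γ), Pos B Z v → v e = 1 →
      v (D.c (y / ψ ^ (d * m))) ≤ 1 := by
    intro m y hy Γ _ v hv hve
    have h1 : D.c (y / ψ ^ (d * m)) = (D.t ^ (d * δ * m) * D.c y) / e ^ (d * m) := by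
      rw [hψ, map_div₀, map_pow, mul_pow, ← pow_mul]
      have h2 : δ * (d * m) = d * δ * m := by ring
      rw [h2, mul_div_mul_left _ _ (pow_ne_zero _ D.t0)]
    rw [h1, map_div₀, map_pow, hve, one_pow, div_one]
    exact hv.1 _ (hform _ _ hy)
  have huW : u ∈ We B Z (F.map D.c) e := by
    intro Γ _ v hv hve
    have h1 := hval 1 (f ^ (E * δ)) (by
      have h2 := fo_pow' A z hf (E * δ)
      rwa [show d * (E * δ) = d * δ * 1 * E by ring] at h2) Γ v hv hve
    rw [mul_one] at h1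
    exact h1
  have huC : u ∈ cw A₀ w t := hW u huW
  have hR : ((QK A z hf).map D.c).comap (F.map D.c).val ≤ locL (cw A₀ w t) u huC := by
    rintro ⟨x, hxF⟩ ⟨y, ⟨n, hn⟩, hyx⟩
    have hyx' : D.c y = x := hyx
    subst hyx'
    rw [mem_locL]
    refine ⟨n, hW _ ?_⟩
    intro Γ _ v hv hve
    have h3 : 0 < E * δ := Nat.mul_pos hE hδ
    obtain ⟨s, hs⟩ := Nat.exists_eq_add_of_lt h3
    rw [zero_add] at hs
    have h1 := hval n (y * f ^ (E * δ * n)) (by
      have h2 := fo_mul A z hn (fo_pow' A z hf (s * n))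
      have h4 : y * f ^ n * f ^ (s * n) = y * f ^ (E * δ * n) := by
        rw [hs]
        ring
      have h5 : d * n + d * (s * n) = d * δ * n * E := by
        have h6 : d * δ * n * E = d * n * (E * δ) := by ring
        rw [h6, hs]
        ring
      rwa [h4, h5] at h2) Γ v hv hve
    have h7 : (((u : F.map D.c) ^ n * ⟨D.c y, hxF⟩ : F.map D.c) : K') =
        D.c (y * f ^ (E * δ * n) / ψ ^ (d * n)) := by
      change (D.c uK) ^ n * D.c y = _
      rw [← map_pow, ← map_mul]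
      congr 1
      simp only [uK]
      rw [div_pow, ← pow_mul, ← pow_mul]
      ring
    rw [h7]
    exact h1
  have hAR : A₀ ≤ ((QK A z hf).map D.c).comap (F.map D.c).val := by
    rintro x ⟨a, ha, hax⟩
    exact ⟨a, le_QK hf ha, hax⟩
  have hui : u⁻¹ ∈ ((QK A z hf).map D.c).comap (F.map D.c).val := by
    refine ⟨uK⁻¹, ⟨E * δ, ?_⟩, ?_⟩
    · have h1 := fo_pow' A z hψF d
      have h2 : uK⁻¹ * f ^ (E * δ) = ψ ^ d := by
        simp only [uK]
        rw [inv_div, div_mul_cancel₀ _ (pow_ne_zero _ hf0)]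
      rw [h2, show d * (E * δ) = δ * E * d by ring]
      exact h1
    · exact map_inv₀ D.c uK
  have heq : Algebra.adjoin k (Set.range fun i => w i / w t) ⊔
      ((QK A z hf).map D.c).comap (F.map D.c).val = locL (cw A₀ w t) u huC := by
    apply le_antisymm
    · exact sup_le (le_sup_right.trans (le_locL _ _ _)) hR
    · intro x hx
      obtain ⟨n, hn⟩ := mem_locL.1 hx
      have h1 : cw A₀ w t ≤ Algebra.adjoin k (Set.range fun i => w i / w t) ⊔
          ((QK A z hf).map D.c).comap (F.map D.c).val :=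
        sup_le (hAR.trans le_sup_right) le_sup_left
      have h2 : x = u⁻¹ ^ n * (u ^ n * x) := by
        rw [← mul_assoc, ← mul_pow, inv_mul_cancel₀ hu0, one_pow, one_mul]
      rw [h2]
      exact Subalgebra.mul_mem _ (Subalgebra.pow_mem _
        ((le_sup_right : ((QK A z hf).map D.c).comap (F.map D.c).val ≤ _) hui) n) (h1 hn)
  rw [heq]
  exact smooth_locL _ hsm u huC hu0

end dom

end Pool.Agent.Helper49.SE
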