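import Pool.Agent.Helper49.SE.El1
import Pool.Agent.Helper85.SE.Local

/-!
# Package CHG: the local rings of the open subset where `f` is not zero
-/

set_option autoImplicit false
set_option linter.unusedSectionVars false

namespace Pool.Agent.Helper49.SE

open MvPolynomial Pool.Agent.W559.Mg Pool.Agent.W559.Et Pool.Agent.Helper49.SQ
  Pool.Agent.Helper85.SE

/-- Package CHG. -/
theorem chg_ (h2 : FoChStm) : ChgStm := by
  intro k K _ _ _ N A z hz d f hf hd hf0 j q hq hu huq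
  obtain ⟨hC1, hC2⟩ := h2 k K N A z hz j
  have hzj := hz j
  have huO : f / z j ^ d ∈ locR (Ch A z j) q hq := mem_loc hq hu
  have hle : ∀ y ∈ QK A z hf, y ∈ locR (Ch A z j) q hq := by
    rintro y ⟨n, hn⟩
    refine ⟨⟨_, hC1 _ _ hn⟩, (⟨_, hu⟩ : Ch A z j) ^ n, fun h => huq (hq.mem_of_pow_mem _ h), ?_⟩
    change y * (f / z j ^ d) ^ n = y * f ^ n / z j ^ (d * n)
    rw [div_pow, ← pow_mul]
    ring
  have hun : ∀ y ∈ locR (Ch A z j) q hq, ¬ Mx q y → ∃ w ∈ locR (Ch A z j) q hq, y * w = 1 := by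
    intro y hy hn
    by_contra hcon
    push Not at hcon
    exact hn (mx_of hq hy hcon)
  let Q : Ideal (QK A z hf) :=
    { carrier := {y | Mx q (y : K)}
      add_mem' := fun ha hb => Mx.add hq ha hb
      zero_mem' := ⟨0, 1, q.zero_mem, fun h => hq.ne_top ((Ideal.eq_top_iff_one _).2 h), by
        change (0 : K) * 1 = 0
        rw [zero_mul]⟩
      smul_mem' := by
        intro c x hx
        change Mx q ((c : K) * (x : K))
        rw [mul_comm]
        exact Mx.mul hq hx (hle _ c.2) }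
  have hQm : ∀ y : QK A z hf, y ∈ Q ↔ Mx q (y : K) := fun y => Iff.rfl
  have hQ : Q.IsPrime := by
    refine ⟨?_, ?_⟩
    · intro htop
      have h3 : (1 : QK A z hf) ∈ Q := by
        rw [htop]
        trivial
      exact ((hQm 1).1 h3).ne hq (Subalgebra.one_mem _) (mul_one _)
    · intro x y hxy
      by_contra hcon
      push Not at hcon
      obtain ⟨w, hw, hw1⟩ := hun _ (hle _ x.2) hcon.1
      obtain ⟨v, hv, hv1⟩ := hun _ (hle _ y.2) hcon.2
      refine ((hQm _).1 hxy).ne hq (Subalgebra.mul_mem _ hw hv) ?_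
      change (x : K) * y * (w * v) = 1
      rw [show (x : K) * y * (w * v) = (x * w) * (y * v) by ring, hw1, hv1, one_mul]
  refine ⟨Q, hQ, le_antisymm ?_ ?_⟩
  · rintro x ⟨a, b, hb, hab⟩
    obtain ⟨w, hw, hw1⟩ := hun _ (hle _ b.2) hb
    have h3 : x = a * w := by
      rw [← hab, mul_assoc, hw1, mul_one]
    rw [h3]
    exact Subalgebra.mul_mem _ (hle _ a.2) hw
  · rintro x ⟨a, b, hb, hab⟩
    obtain ⟨d1, hd1⟩ := hC2 a a.2
    obtain ⟨d2, hd2⟩ := hC2 b b.2
    obtain ⟨n, hn⟩ : ∃ n, n = d1 + d2 := ⟨_, rfl⟩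
    have hdn : n ≤ d * n := Nat.le_mul_of_pos_left n hd
    have ha' : (a : K) * z j ^ (d * n) / f ^ n ∈ QK A z hf := by
      refine ⟨n, ?_⟩
      rw [div_mul_cancel₀ _ (pow_ne_zero _ hf0)]
      exact hd1 _ (by omega)
    have hb' : (b : K) * z j ^ (d * n) / f ^ n ∈ QK A z hf := by
      refine ⟨n, ?_⟩
      rw [div_mul_cancel₀ _ (pow_ne_zero _ hf0)]
      exact hd2 _ (by omega)
    refine ⟨⟨_, ha'⟩, ⟨_, hb'⟩, ?_, ?_⟩
    · intro hcon
      have h3 := ((hQm _).1 hcon).mul hq (Subalgebra.pow_mem _ huO n)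
      have h4 : (b : K) * z j ^ (d * n) / f ^ n * (f / z j ^ d) ^ n = b := by
        rw [div_pow, ← pow_mul]
        have := pow_ne_zero (d * n) hzj
        have := pow_ne_zero n hf0
        field_simp
      rw [h4] at h3
      exact hb (mem_of_mx hq b.2 h3)
    · change x * ((b : K) * z j ^ (d * n) / f ^ n) = (a : K) * z j ^ (d * n) / f ^ n
      rw [← hab]
      ring

end Pool.Agent.Helper49.SE
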