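import Pool.Agent.Helper49.SE.El1
import Pool.Agent.Helper85.SE.Local
import Pool.Agent.Helper33.SE.Inertia
import Pool.Agent.Helper18.SE.Loc

/-!
# Package CLOSED: closed points suffice
-/

set_option autoImplicit false
set_option linter.unusedSectionVars false

namespace Pool.Agent.Helper49.SE

open MvPolynomial Pool.Agent.W559.Mg Pool.Agent.W559.Et Pool.Agent.Helper49.SQ
  Pool.Agent.Helper85.SE

section

variable {k K : Type} [Field k] [Field K] [Algebra k K] {G : Type} [Group G]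
  {ρ : G →* (K ≃ₐ[k] K)} {B : Subalgebra k K}

lemma locR_mono {q m : Ideal B} (hq : q.IsPrime) (hm : m.IsPrime) (hqm : q ≤ m) :
    locR B m hm ≤ locR B q hq := by
  rintro x ⟨a, b, hb, hab⟩
  exact ⟨a, b, fun h => hb (hqm h), hab⟩

/-- Localization of linear coordinates. -/
theorem lin_of_le {q m : Ideal B} (hq : q.IsPrime) (hm : m.IsPrime) (hqm : q ≤ m)
    (hin : ∀ g, InG ρ (locR B q hq) g → InG ρ (locR B m hm) g)
    (h : LinG ρ (locR B m hm)) : LinG ρ (locR B q hq) := by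
  obtain ⟨n, y, hy, hl⟩ := h
  have hle := locR_mono hq hm hqm
  refine ⟨n, fun i => ⟨y i, hle (y i).2⟩, ?_, fun g hg i => hl g (hin g hg) i⟩
  let O := locR B m hm
  let O' := locR B q hq
  have hle' : O ≤ O' := hle
  let a1 : Algebra (MvPolynomial (Fin n) k) O :=
    (aeval y : MvPolynomial (Fin n) k →ₐ[k] O).toRingHom.toAlgebra
  let a2 : Algebra O O' := (Subalgebra.inclusion hle').toRingHom.toAlgebra
  let a3 : Algebra (MvPolynomial (Fin n) k) O' :=
    (aeval (fun i => (⟨y i, hle (y i).2⟩ : O')) :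
      MvPolynomial (Fin n) k →ₐ[k] O').toRingHom.toAlgebra
  have ht : IsScalarTower (MvPolynomial (Fin n) k) O O' := by
    refine IsScalarTower.of_algebraMap_eq' ?_
    have h1 : (aeval (fun i => (⟨y i, hle (y i).2⟩ : O')) : MvPolynomial (Fin n) k →ₐ[k] O') =
        (Subalgebra.inclusion hle').comp (aeval y : MvPolynomial (Fin n) k →ₐ[k] O) := by
      apply MvPolynomial.algHom_ext
      intro i
      rw [AlgHom.comp_apply, aeval_X, aeval_X]
      rfl
    exact congrArg AlgHom.toRingHom h1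
  have e1 : Algebra.FormallyEtale (MvPolynomial (Fin n) k) O := hy
  let M : Submonoid O :=
    { carrier := {x | ∃ w ∈ O', (x : K) * w = 1}
      one_mem' := ⟨1, O'.one_mem, mul_one _⟩
      mul_mem' := by
        rintro x y ⟨w, hw, hw1⟩ ⟨v, hv, hv1⟩
        refine ⟨w * v, O'.mul_mem hw hv, ?_⟩
        change (x : K) * y * (w * v) = 1
        rw [show (x : K) * y * (w * v) = (x * w) * (y * v) by ring, hw1, hv1, one_mul] }
  have hloc : IsLocalization M O' := by
    refine (isLocalization_iff M O').2 ⟨?_, ?_, ?_⟩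
    · rintro ⟨x, w, hw, hw1⟩
      exact IsUnit.of_mul_eq_one ⟨w, hw⟩ (Subtype.ext hw1)
    · rintro ⟨x, a, b, hb, hab⟩
      have hb0 : (b : K) ≠ 0 := Pool.Agent.Helper33.SE.ne_zero_of_notMem hb
      refine ⟨(⟨a, mem_loc hm a.2⟩, ⟨⟨b, mem_loc hm b.2⟩, (b : K)⁻¹, ?_, mul_inv_cancel₀ hb0⟩),
        Subtype.ext hab⟩
      exact Pool.Agent.Helper33.SE.inv_mem hq hb
    · intro x x' hx
      have h1 : (x : K) = x' := congrArg (fun z : O' => (z : K)) hx
      exact ⟨1, by rw [Subtype.ext h1]⟩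
  have e2 : Algebra.FormallyEtale O O' := Algebra.FormallyEtale.of_isLocalization M
  exact Algebra.FormallyEtale.comp (MvPolynomial (Fin n) k) O O'

/-- The inertia group of a stable algebra. -/
lemma inG_iff (hB : ∀ g, ∀ b ∈ B, ρ g b ∈ B) {q : Ideal B} (hq : q.IsPrime) (g : G) :
    InG ρ (locR B q hq) g ↔
      ∀ (b : K) (hb : b ∈ B), (⟨ρ g b - b, B.sub_mem (hB g b hb) hb⟩ : B) ∈ q := by
  constructor
  · intro h b hb
    exact mem_of_mx hq _ (inG_mx hq h (mem_loc hq hb))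
  · intro h
    exact Pool.Agent.Helper33.SE.inG_of ρ g hq fun b hb =>
      Pool.Agent.Helper33.SE.mx_of_q hq (h b hb)

end

/-- Package CLOSED. -/
theorem closed_ : ClosedStm := by
  intro k K _ _ _ G _ _ ρ B _ hB q m hq hm hqm
  have h1 : ∀ g, InG ρ (locR B q hq) g → InG ρ (locR B m hm.isPrime) g := by
    intro g hg
    rw [inG_iff hB] at hg ⊢
    exact fun b hb => hqm (hg b hb)
  exact ⟨h1, lin_of_le hq hm.isPrime hqm h1⟩

/-- Version for the charts. -/
theorem closed_ch (h5 : InChStm) {k K : Type} [Field k] [Field K] [Algebra k K] {N : ℕ}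
    {A : Subalgebra k K} {z : Fin (N + 1) → K} {G : Type} [Group G] [Finite G]
    {ρ : G →* (K ≃ₐ[k] K)} (act : Act ρ A z) {j : Fin (N + 1)} {q m : Ideal (Ch A z j)}
    (hq : q.IsPrime) (hm : m.IsPrime) (hqm : q ≤ m) :
    (∀ g, InG ρ (locR (Ch A z j) q hq) g → InG ρ (locR (Ch A z j) m hm) g) ∧
    (LinG ρ (locR (Ch A z j) m hm) → LinG ρ (locR (Ch A z j) q hq)) := by
  have h1 : ∀ g, InG ρ (locR (Ch A z j) q hq) g → InG ρ (locR (Ch A z j) m hm) g := by
    intro g hg
    rw [h5 k K N A z G ρ act j q hq g] at hg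
    rw [h5 k K N A z G ρ act j m hm g]
    exact ⟨fun i h => hqm (hg.1 i h), fun a ha h => hqm (hg.2 a ha h)⟩
  exact ⟨h1, lin_of_le hq hm hqm h1⟩

end Pool.Agent.Helper49.SE
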