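import Pool.Agent.Helper49.SQ.Fam
import Pool.Graph.R_seed8.W559.Et.Stm6

/-!
# Quotients by groups which are linear in etale coordinates: definitions and statements
-/

set_option autoImplicit false
set_option linter.unusedSectionVars false

namespace Pool.Agent.Helper49.SE

open MvPolynomial Pool.Agent.W559.Mg Pool.Agent.W559.Et Pool.Agent.Helper49.SQ

section defs

variable {k K : Type} [Field k] [Field K] [Algebra k K] {N : ℕ}

/-- The chart `A[z_0 / z_j, ..., z_N / z_j]`. -/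
noncomputable abbrev Ch (A : Subalgebra k K) (z : Fin (N + 1) → K) (j : Fin (N + 1)) :
    Subalgebra k K :=
  A ⊔ Algebra.adjoin k (Set.range fun i => z i / z j)

/-- The forms of degree `d` in the `z i` with coefficients in `A`. -/
noncomputable def Fo (A : Subalgebra k K) (z : Fin (N + 1) → K) (d : ℕ) : Submodule k K :=
  Submodule.span k {x | ∃ a ∈ A, ∃ m : Fin d → Fin (N + 1), x = a * ∏ i, z (m i)}

variable {G : Type} [Group G]

/-- The element `g` is in the inertia group of the local ring `O`. -/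
def InG (ρ : G →* (K ≃ₐ[k] K)) (O : Subalgebra k K) (g : G) : Prop :=
  ∀ x ∈ O, ρ g x ∈ O ∧ ∀ x' ∈ O, (ρ g x - x) * x' ≠ 1

/-- The inertia group of the local ring `O` is linear in etale coordinates. -/
def LinG (ρ : G →* (K ≃ₐ[k] K)) (O : Subalgebra k K) : Prop :=
  ∃ (n : ℕ) (y : Fin n → O),
    ((aeval y : MvPolynomial (Fin n) k →ₐ[k] O).toRingHom).FormallyEtale ∧
    ∀ g, InG ρ O g → ∀ i, ρ g (y i : K) ∈ Submodule.span k (Set.range fun j => (y j : K))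

/-- The action is compatible with the homogeneous coordinates. -/
structure Act (ρ : G →* (K ≃ₐ[k] K)) (A : Subalgebra k K) (z : Fin (N + 1) → K) : Prop where
  z0 : ∀ i, z i ≠ 0
  A : ∀ g, ∀ a ∈ A, ρ g a ∈ A
  lin : ∀ g i, ρ g (z i) ∈ Submodule.span k (Set.range z)

/-- Local data at the prime `q` of the chart `j` in degree `D`. -/
def Dat (ρ : G →* (K ≃ₐ[k] K)) (A : Subalgebra k K) (z : Fin (N + 1) → K) (j : Fin (N + 1))
    (D : ℕ) (P : K → Prop) (J : G → Prop) (f : K) (hf : f ∈ Ch A z j) : Prop :=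
  ∃ (s : K) (n : ℕ) (y : Fin n → lc (Ch A z j) f hf),
    ((aeval y : MvPolynomial (Fin n) k →ₐ[k] lc (Ch A z j) f hf).toRingHom).Etale ∧
    s ≠ 0 ∧ s ∈ Fo A z D ∧ (∀ i, s * y i ∈ Fo A z D) ∧ z j ^ D / s ∈ lc (Ch A z j) f hf ∧
    P s ∧ (∀ i, P (s * y i)) ∧
    ∀ g, J g → ρ g s = s ∧ ∀ i, ρ g (y i : K) ∈ Submodule.span k (Set.range fun j => (y j : K))

end defs

/-- Package FO: products of forms. -/
def FoMulStm : Prop := ∀ (k K : Type) [Field k] [Field K] [Algebra k K] (N : ℕ)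
  (A : Subalgebra k K) (z : Fin (N + 1) → K),
  (∀ (d e : ℕ) (x y : K), x ∈ Fo A z d → y ∈ Fo A z e → x * y ∈ Fo A z (d + e)) ∧
  (∀ a ∈ A, a ∈ Fo A z 0) ∧ (∀ i, z i ∈ Fo A z 1)

/-- Package FO: forms and charts. -/
def FoChStm : Prop := ∀ (k K : Type) [Field k] [Field K] [Algebra k K] (N : ℕ)
  (A : Subalgebra k K) (z : Fin (N + 1) → K) (_ : ∀ i, z i ≠ 0) (j : Fin (N + 1)),
  (∀ (d : ℕ) (x : K), x ∈ Fo A z d → x / z j ^ d ∈ Ch A z j) ∧
  (∀ c ∈ Ch A z j, ∃ d0 : ℕ, ∀ d, d0 ≤ d → c * z j ^ d ∈ Fo A z d)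

/-- Package FO: the action on forms. -/
def FoActStm : Prop := ∀ (k K : Type) [Field k] [Field K] [Algebra k K] (N : ℕ)
  (A : Subalgebra k K) (z : Fin (N + 1) → K) (G : Type) [Group G] (ρ : G →* (K ≃ₐ[k] K)),
  Act ρ A z → ∀ (g : G) (d : ℕ) (x : K), x ∈ Fo A z d → ρ g x ∈ Fo A z d

/-- Package SPREAD: etale coordinates near a point. -/
def SpreadGStm : Prop := ∀ (k K : Type) [Field k] [Field K] [Algebra k K] (G : Type) [Group G]
  (ρ : G →* (K ≃ₐ[k] K)) (B : Subalgebra k K) (_ : Algebra.Smooth k B) (q : Ideal B)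
  (hq : q.IsPrime) (_ : LinG ρ (locR B q hq)),
  ∃ (f : K) (hf : f ∈ B) (n : ℕ) (y : Fin n → lc B f hf), (⟨f, hf⟩ : B) ∉ q ∧
    ((aeval y : MvPolynomial (Fin n) k →ₐ[k] lc B f hf).toRingHom).Etale ∧
    ∀ g, InG ρ (locR B q hq) g →
      ∀ i, ρ g (y i : K) ∈ Submodule.span k (Set.range fun j => (y j : K))

/-- Package INERTIA (1): the inertia group of a point of a chart. -/
def InChStm : Prop := ∀ (k K : Type) [Field k] [Field K] [Algebra k K] (N : ℕ)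
  (A : Subalgebra k K) (z : Fin (N + 1) → K) (G : Type) [Group G] [Finite G]
  (ρ : G →* (K ≃ₐ[k] K)), Act ρ A z → ∀ (j : Fin (N + 1)) (q : Ideal (Ch A z j))
  (hq : q.IsPrime) (g : G), InG ρ (locR (Ch A z j) q hq) g ↔
    (∀ (i : Fin (N + 1)) (h : ρ g (z i) / z j - z i / z j * (ρ g (z j) / z j) ∈ Ch A z j),
      (⟨_, h⟩ : Ch A z j) ∈ q) ∧
    (∀ a ∈ A, ∀ h : ρ g a - a ∈ Ch A z j, (⟨_, h⟩ : Ch A z j) ∈ q)

/-- Package INERTIA (2): the inertia groups near a point. -/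
def InNearStm : Prop := ∀ (k K : Type) [Field k] [Field K] [Algebra k K] (N : ℕ)
  (A : Subalgebra k K) (z : Fin (N + 1) → K) (G : Type) [Group G] [Finite G]
  (ρ : G →* (K ≃ₐ[k] K)), Act ρ A z → ∀ (j : Fin (N + 1)) (q : Ideal (Ch A z j))
  (hq : q.IsPrime), ∃ (f : K) (hf : f ∈ Ch A z j), (⟨f, hf⟩ : Ch A z j) ∉ q ∧
    ∀ (q' : Ideal (Ch A z j)) (hq' : q'.IsPrime), (⟨f, hf⟩ : Ch A z j) ∉ q' →
      ∀ g, InG ρ (locR (Ch A z j) q' hq') g → InG ρ (locR (Ch A z j) q hq) g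

/-- Package ETLOC: localization of etale coordinates. -/
def EtLocStm : Prop := ∀ (k K : Type) [Field k] [Field K] [Algebra k K] (B : Subalgebra k K)
  (f g : K) (hf : f ∈ B) (hg : g ∈ B) (_ : g ≠ 0) (C : Subalgebra k K) (_ : lc B f hf ≤ C)
  (_ : C = lc (lc B f hf) g (le_lc B f hf hg)) (n : ℕ) (y : Fin n → lc B f hf)
  (_ : ((aeval y : MvPolynomial (Fin n) k →ₐ[k] lc B f hf).toRingHom).Etale)
  (y' : Fin n → C), (∀ i, (y' i : K) = y i) →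
  ((aeval y' : MvPolynomial (Fin n) k →ₐ[k] C).toRingHom).Etale

/-- Package LOCAL: the local data (uses FO, SPREAD, INERTIA, ETLOC). -/
def LocalStm : Prop := ∀ (k K : Type) [Field k] [Field K] [Algebra k K] (N : ℕ)
  (A : Subalgebra k K) (z : Fin (N + 1) → K) (G : Type) [Group G] [Finite G]
  (ρ : G →* (K ≃ₐ[k] K)), Act ρ A z → (∀ j, Algebra.Smooth k (Ch A z j)) →
  ∀ (j : Fin (N + 1)) (q : Ideal (Ch A z j)) (hq : q.IsPrime),
  LinG ρ (locR (Ch A z j) q hq) →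
  ∃ (D : ℕ) (f : K) (hf : f ∈ Ch A z j), 0 < D ∧ (⟨f, hf⟩ : Ch A z j) ∉ q ∧
    Dat ρ A z j D (fun _ => True) (fun g => ∃ (q' : Ideal (Ch A z j)) (hq' : q'.IsPrime),
      (⟨f, hf⟩ : Ch A z j) ∉ q' ∧ InG ρ (locR (Ch A z j) q' hq') g) f hf

/-- Package FINITE: finitely many local data of one degree (uses LOCAL, FO). -/
def FiniteStm : Prop := ∀ (k K : Type) [Field k] [Field K] [Algebra k K] (N : ℕ)
  (A : Subalgebra k K) (z : Fin (N + 1) → K) (G : Type) [Group G] [Finite G]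
  (ρ : G →* (K ≃ₐ[k] K)), Act ρ A z → (∀ j, Algebra.Smooth k (Ch A z j)) →
  (∀ (j : Fin (N + 1)) (q : Ideal (Ch A z j)) (hq : q.IsPrime),
    LinG ρ (locR (Ch A z j) q hq)) →
  ∃ (E : ℕ) (S : Finset K), 0 < E ∧ (∀ x ∈ S, x ∈ Fo A z E) ∧
    ∀ (j : Fin (N + 1)) (q : Ideal (Ch A z j)) (hq : q.IsPrime),
      ∃ (f : K) (hf : f ∈ Ch A z j), (⟨f, hf⟩ : Ch A z j) ∉ q ∧
        Dat ρ A z j E (fun x => x ∈ S) (fun g => InG ρ (locR (Ch A z j) q hq) g) f hf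

/-- Package CONE: etale coordinates on the cone. -/
def ConeGStm : Prop := ∀ (k K K' : Type) [Field k] [Field K] [Algebra k K] [Field K']
  [Algebra k K'] (N : ℕ) (A : Subalgebra k K) (z : Fin (N + 1) → K) (G : Type) [Group G]
  [Finite G] (ρ : G →* (K ≃ₐ[k] K)) (_ : Act ρ A z) (_ : ∀ j, Algebra.Smooth k (Ch A z j))
  (ρ' : G →* (K' ≃ₐ[k] K')) (c : K →ₐ[k] K') (t : K') (_ : Transcendental c.fieldRange t)
  (_ : ∀ g x, ρ' g (c x) = c (ρ g x)) (_ : ∀ g, ρ' g t = t) (E : ℕ) (_ : 0 < E)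
  (Z Y : Finset K') (_ : ∀ x ∈ Z, ∃ w ∈ Fo A z E, x = t * c w)
  (_ : ∀ g, ∀ x ∈ Z, ρ' g x ∈ Z) (_ : ∀ g, ∀ x ∈ Y, ρ' g x ∈ Y)
  (_ : ∀ m : Fin E → Fin (N + 1), t * c (∏ i, z (m i)) ∈ Z)
  (_ : Algebra.adjoin k (Y : Set K') = A.map c)
  (_ : ∀ (j : Fin (N + 1)) (q : Ideal (Ch A z j)) (hq : q.IsPrime),
      ∃ (f : K) (hf : f ∈ Ch A z j), (⟨f, hf⟩ : Ch A z j) ∉ q ∧
        Dat ρ A z j E (fun x => t * c x ∈ Z) (fun g => InG ρ (locR (Ch A z j) q hq) g) f hf)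
  (B : Subalgebra k K') (_ : B = Algebra.adjoin k ((Y : Set K') ∪ (Z : Set K'))),
  LLZ ρ' B Z ∧
  -- the inertia groups of the cone
  ∀ q : Ideal B, q.IsPrime → (∃ (x : K') (hx : x ∈ B), x ∈ Z ∧ (⟨x, hx⟩ : B) ∉ q) →
    ∃ (j : Fin (N + 1)) (P : Ideal (Ch A z j)) (hP : P.IsPrime), ∀ g,
      (∀ b ∈ B, ∀ h : ρ' g b - b ∈ B, (⟨ρ' g b - b, h⟩ : B) ∈ q) →
        InG ρ (locR (Ch A z j) P hP) g

end Pool.Agent.Helper49.SE
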