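import Pool.Agent.Helper49.SE.Loc2
import Pool.Agent.Helper69.SE.Finite

/-!
# Package FINITE2: finitely many local data of one degree
-/

set_option autoImplicit false
set_option linter.unusedSectionVars false

namespace Pool.Agent.Helper49.SE

open MvPolynomial Pool.Agent.W559.Mg Pool.Agent.W559.Et Pool.Agent.Helper49.SQ
  Pool.Agent.Helper69.SE

/-- Package FINITE2 (after helper69). -/
theorem finite2 (hLoc : Local2Stm) (hMul : FoMulStm) : Finite2Stm := by
  classical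
  intro k K _ _ _ N A z G _ _ ρ hA hfg Sf d hd hSf hL
  -- the property of `f`
  let Q : ∀ j : Fin (N + 1), Ch A z j → ℕ → Prop := fun j f D =>
    0 < D ∧ Dat ρ A z j D (fun _ => True) (fun g => ∃ (q' : Ideal (Ch A z j)) (hq' : q'.IsPrime),
      (⟨f, f.2⟩ : Ch A z j) ∉ q' ∧ InG ρ (locR (Ch A z j) q' hq') g) f f.2
  have hfin : ∀ j : Fin (N + 1), ∃ T : Finset (Ch A z j),
      (∀ f ∈ T, ∃ D, Q j f D) ∧ ∀ q : Ideal (Ch A z j), q.IsPrime → InV A z Sf d j q →
        ∃ f ∈ T, f ∉ q := by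
    intro j
    have hft : Algebra.FiniteType k (Ch A z j) :=
      (Subalgebra.fg_iff_finiteType _).1 (ch_fg hfg j)
    have hno : IsNoetherianRing (Ch A z j) := Algebra.FiniteType.isNoetherianRing k _
    have h1 : (Ideal.span {f : Ch A z j | ∃ D, Q j f D}).FG := IsNoetherian.noetherian _
    obtain ⟨T, hT, hT'⟩ := Submodule.fg_span_iff_fg_span_finset_subset _ |>.1 h1
    refine ⟨T, fun f hf => hT hf, ?_⟩
    intro q hq hV
    obtain ⟨D, f, hf, hD, hfm, hdat⟩ := hLoc k K N A z G ρ hA hfg j q hq (hL j q hq hV)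
    by_contra hcon
    push Not at hcon
    have h2 : Ideal.span {f : Ch A z j | ∃ D, Q j f D} ≤ q := by
      change Submodule.span _ _ ≤ _
      rw [hT']
      exact Submodule.span_le.2 fun f hf => hcon f hf
    exact hfm (h2 (Ideal.subset_span ⟨D, hD, hdat⟩))
  choose T hT hTtop using hfin
  have hD : ∀ (j : Fin (N + 1)) (f : Ch A z j), ∃ D, f ∈ T j → Q j f D := by
    intro j f
    by_cases h : f ∈ T j
    · obtain ⟨D, hD⟩ := hT j f h
      exact ⟨D, fun _ => hD⟩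
    · exact ⟨0, fun h' => absurd h' h⟩
  choose D hD using hD
  obtain ⟨e0, he0e⟩ : ∃ e0 : ℕ, e0 = ∏ j : Fin (N + 1), ∏ f ∈ T j, D j f := ⟨_, rfl⟩
  have he00 : 0 < e0 := by
    rw [he0e]
    exact Finset.prod_pos fun j _ => Finset.prod_pos fun f hf => (hD j f hf).1
  obtain ⟨E, hE⟩ : ∃ E : ℕ, E = d * e0 := ⟨_, rfl⟩
  have hE0 : 0 < E := by
    rw [hE]
    exact Nat.mul_pos hd he00
  have hdvd : ∀ j, ∀ f ∈ T j, D j f ∣ E := by
    intro j f hf
    rw [hE]
    refine Dvd.dvd.mul_left ?_ _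
    rw [he0e]
    exact (Finset.dvd_prod_of_mem (D j) hf).trans
      (Finset.dvd_prod_of_mem (fun j => ∏ f ∈ T j, D j f) (Finset.mem_univ j))
  have hex : ∀ (j : Fin (N + 1)) (f : Ch A z j), ∃ S : Finset K, f ∈ T j →
      (∀ x ∈ S, x ∈ Fo A z E) ∧ Dat ρ A z j E (fun x => x ∈ S)
        (fun g => ∃ (q' : Ideal (Ch A z j)) (hq' : q'.IsPrime),
          (⟨f, f.2⟩ : Ch A z j) ∉ q' ∧ InG ρ (locR (Ch A z j) q' hq') g) f f.2 := by
    intro j f
    by_cases h : f ∈ T j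
    · obtain ⟨e, he⟩ := hdvd j f h
      have he0 : 0 < e := by
        rcases Nat.eq_zero_or_pos e with h0 | h0
        · rw [h0, mul_zero] at he
          omega
        · exact h0
      obtain ⟨S, h1, h2⟩ := raise hMul ρ A z j (D j f) _ f f.2 (hD j f h).2 e he0
      rw [← he] at h1 h2
      exact ⟨S, fun _ => ⟨h1, h2⟩⟩
    · exact ⟨∅, fun h' => absurd h' h⟩
  choose S hS' using hex
  rw [hE] at hS' 
  refine ⟨e0, Finset.univ.biUnion fun j => (T j).biUnion fun f => S j f, he00, ?_, ?_⟩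
  · intro x hx
    obtain ⟨j, -, hx⟩ := Finset.mem_biUnion.1 hx
    obtain ⟨f, hf, hx⟩ := Finset.mem_biUnion.1 hx
    exact (hS' j f hf).1 x hx
  · intro j q hq hV
    obtain ⟨f, hf, hfq⟩ : ∃ f ∈ T j, f ∉ q := hTtop j q hq hV
    refine ⟨f, f.2, hfq, ?_⟩
    refine dat_mono ρ A z j (d * e0) _ _ _ _ f f.2 ?_ ?_ (hS' j f hf).2
    · intro x hx
      exact Finset.mem_biUnion.2 ⟨j, Finset.mem_univ _, Finset.mem_biUnion.2 ⟨f, hf, hx⟩⟩
    · intro g hg
      exact ⟨q, hq, hfq, hg⟩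

end Pool.Agent.Helper49.SE
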