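import Pool.Agent.Helper49.SE.El1
import Pool.Agent.Helper85.SE.Local

/-!
# Package LOCAL2: the local data
-/

set_option autoImplicit false
set_option linter.unusedSectionVars false

namespace Pool.Agent.Helper49.SE

open MvPolynomial Pool.Agent.W559.Mg Pool.Agent.W559.Et Pool.Agent.Helper49.SQ
  Pool.Agent.Helper85.SE

lemma ch_fg {k K : Type} [Field k] [Field K] [Algebra k K] {N : ℕ} {A : Subalgebra k K}
    {z : Fin (N + 1) → K} (hfg : A.FG) (j : Fin (N + 1)) : (Ch A z j).FG :=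
  hfg.sup (Subalgebra.fg_def.2 ⟨_, Set.finite_range _, rfl⟩)

/-- Package LOCAL2 (the proof is the one of helper85 for LOCAL). -/
theorem local2 (h1 : FoMulStm) (h2 : FoChStm) (h3 : FoActStm) (h4 : SpreadG2Stm)
    (h5 : InNearStm) (h6 : EtLocStm) : Local2Stm := by
  intro k K _ _ _ N A z G _ _ ρ hact hfg j q hq hlin
  classical
  have _ := Fintype.ofFinite G
  obtain ⟨hFm, hF0, -⟩ := h1 k K N A z
  obtain ⟨hC1, hC2⟩ := h2 k K N A z hact.z0 j
  have hA := h3 k K N A z G ρ hact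
  obtain ⟨f0, hf0, n, y, hf0q, het, hy⟩ := h4 k K G ρ (Ch A z j) (ch_fg hfg j) q hq hlin
  obtain ⟨f2, hf2, hf2q, hf2'⟩ := h5 k K N A z G ρ hact j q hq
  have hzj : z j ≠ 0 := hact.z0 j
  have hf00 : f0 ≠ 0 := by
    intro h0
    subst h0
    exact hf0q (by rw [show (⟨0, hf0⟩ : Ch A z j) = 0 from rfl]; exact q.zero_mem)
  have hf20 : f2 ≠ 0 := by
    intro h0
    subst h0
    exact hf2q (by rw [show (⟨0, hf2⟩ : Ch A z j) = 0 from rfl]; exact q.zero_mem)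
  -- the exponent
  have hy1 : ∀ i, ∃ m : ℕ, f0 ^ m * (y i : K) ∈ Ch A z j := fun i => (y i).2
  choose m hm using hy1
  obtain ⟨r, hr⟩ : ∃ r : ℕ, ∀ i, m i ≤ r := ⟨∑ i, m i, fun i =>
    Finset.single_le_sum (fun _ _ => Nat.zero_le _) (Finset.mem_univ i)⟩
  have hyr : ∀ i, f0 ^ r * (y i : K) ∈ Ch A z j := fun i => by
    have e : f0 ^ r * (y i : K) = f0 ^ (r - m i) * (f0 ^ m i * (y i : K)) := by
      rw [← mul_assoc, ← pow_add, Nat.sub_add_cancel (hr i)]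
    rw [e]
    exact (Ch A z j).mul_mem ((Ch A z j).pow_mem hf0 _) (hm i)
  have hfr : f0 ^ r ∈ Ch A z j := (Ch A z j).pow_mem hf0 _
  obtain ⟨da, hda⟩ := hC2 _ hfr
  choose db hdb using fun i => hC2 _ (hyr i)
  obtain ⟨D0, hD0, hD1, hD2⟩ : ∃ D0 : ℕ, 0 < D0 ∧ da ≤ D0 ∧ ∀ i, db i ≤ D0 :=
    ⟨1 + da + ∑ i, db i, by omega, by omega, fun i => by
      have := Finset.single_le_sum (f := db) (fun _ _ => Nat.zero_le _) (Finset.mem_univ i)
      omega⟩
  have hβ : f0 ^ r * z j ^ D0 ∈ Fo A z D0 := hda _ hD1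
  have hβy : ∀ i, f0 ^ r * (y i : K) * z j ^ D0 ∈ Fo A z D0 := fun i => hdb i _ (hD2 i)
  obtain ⟨β, hβe⟩ : ∃ β : K, β = f0 ^ r * z j ^ D0 := ⟨_, rfl⟩
  have hβ0 : β ≠ 0 := by
    rw [hβe]
    exact mul_ne_zero (pow_ne_zero _ hf00) (pow_ne_zero _ hzj)
  rw [← hβe] at hβ
  -- the inertia group
  obtain ⟨I, hI⟩ : ∃ I : Finset G, ∀ g, g ∈ I ↔ InG ρ (locR (Ch A z j) q hq) g :=
    ⟨Finset.univ.filter fun g => InG ρ (locR (Ch A z j) q hq) g, fun g => by simp⟩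
  have h1I : (1 : G) ∈ I := (hI 1).2 (inG_one _)
  obtain ⟨s, hs⟩ : ∃ s : K, s = ∏ h ∈ I, ρ h β := ⟨_, rfl⟩
  have hs0 : s ≠ 0 := by
    rw [hs]
    refine Finset.prod_ne_zero_iff.2 fun h _ => ?_
    rw [Ne, EmbeddingLike.map_eq_zero_iff]
    exact hβ0
  obtain ⟨D, hD⟩ : ∃ D : ℕ, D = D0 * I.card := ⟨_, rfl⟩
  have hsF : s ∈ Fo A z D := by
    rw [hs, hD]
    exact fo_prod h1 I D0 _ fun h _ => hA h D0 β hβ
  have hsinv : ∀ g ∈ I, ρ g s = s := by
    intro g hg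
    rw [hs, map_prod]
    have e1 : ∀ h : G, ρ g (ρ h β) = ρ (g * h) β := fun h => by
      rw [map_mul]
      rfl
    simp only [e1]
    have himg : I.image (fun h => g * h) = I := by
      apply Finset.eq_of_subset_of_card_le
      · intro x hx
        obtain ⟨h, hh, rfl⟩ := Finset.mem_image.1 hx
        exact (hI _).2 (inG_mul hq ((hI g).1 hg) ((hI h).1 hh))
      · rw [Finset.card_image_of_injective _ (mul_right_injective g)]
    conv_rhs => rw [← himg]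
    rw [Finset.prod_image fun a _ b _ hab => mul_right_injective g hab]
  have hsy : ∀ i, s * (y i : K) ∈ Fo A z D := by
    intro i
    have e1 : s * (y i : K) = (f0 ^ r * (y i : K) * z j ^ D0) * ∏ h ∈ I.erase 1, ρ h β := by
      have e3 : β * (y i : K) = f0 ^ r * (y i : K) * z j ^ D0 := by
        rw [hβe]
        ring
      rw [hs, ← Finset.mul_prod_erase _ _ h1I, map_one, AlgEquiv.one_apply, ← e3]
      ring
    rw [e1]
    have e2 : D = D0 + D0 * (I.erase 1).card := by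
      rw [hD, Finset.card_erase_of_mem h1I]
      have : 0 < I.card := Finset.card_pos.2 ⟨1, h1I⟩
      obtain ⟨c, hc⟩ : ∃ c, I.card = c + 1 := ⟨I.card - 1, by omega⟩
      rw [hc, Nat.add_sub_cancel]
      ring
    rw [e2]
    exact hFm _ _ _ _ (hβy i) (fo_prod h1 _ D0 _ fun h _ => hA h D0 β hβ)
  -- the function `u`
  have hv : ∀ h, ρ h β / z j ^ D0 ∈ Ch A z j := fun h => hC1 _ _ (hA h D0 β hβ)
  have hvq : ∀ h ∈ I, (⟨ρ h β / z j ^ D0, hv h⟩ : Ch A z j) ∉ q := by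
    intro h hh hcon
    have hin := (hI h).1 hh
    have ht' : z j / ρ h (z j) ∈ locR (Ch A z j) q hq := by
      have h7 : ρ h⁻¹ (z j) / z j ∈ Ch A z j := span_div (hact.lin h⁻¹ j) j
      have h8 := (hin _ (mem_loc hq h7)).1
      rw [map_div₀] at h8
      have h9 : ρ h (ρ h⁻¹ (z j)) = z j := by
        have : ρ h (ρ h⁻¹ (z j)) = (ρ h * ρ h⁻¹) (z j) := rfl
        rw [this, ← map_mul, mul_inv_cancel, map_one]
        rfl
      rwa [h9] at h8
    have hρz : ρ h (z j) ≠ 0 := by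
      rw [Ne, EmbeddingLike.map_eq_zero_iff]
      exact hzj
    have h10 : Mx q (ρ h (f0 ^ r)) := by
      have h11 := (mx_mem hq (hv h) hcon).mul hq
        ((locR (Ch A z j) q hq).pow_mem ht' D0)
      have e : ρ h β / z j ^ D0 * (z j / ρ h (z j)) ^ D0 = ρ h (f0 ^ r) := by
        rw [hβe, map_mul, map_pow (ρ h) (z j) D0, div_pow]
        field_simp
      rwa [e] at h11
    have h12 := h10.add hq (inG_mx hq hin (mem_loc hq hfr)).neg
    have e : ρ h (f0 ^ r) + -(ρ h (f0 ^ r) - f0 ^ r) = f0 ^ r := by ring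
    rw [e] at h12
    have h13 := mem_of_mx hq hfr h12
    have h14 : (⟨f0, hf0⟩ : Ch A z j) ^ r ∈ q := h13
    exact hf0q (hq.mem_of_pow_mem _ h14)
  have hu : s / z j ^ D ∈ Ch A z j := hC1 _ _ hsF
  have hue : (⟨s / z j ^ D, hu⟩ : Ch A z j) =
      ∏ h ∈ I, (⟨ρ h β / z j ^ D0, hv h⟩ : Ch A z j) := by
    apply Subtype.ext
    rw [SubmonoidClass.coe_finsetProd]
    change s / z j ^ D = ∏ h ∈ I, ρ h β / z j ^ D0
    rw [Finset.prod_div_distrib, ← hs, Finset.prod_const, hD, pow_mul]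
  have huq : (⟨s / z j ^ D, hu⟩ : Ch A z j) ∉ q := by
    rw [hue]
    intro hcon
    obtain ⟨h, hh, h7⟩ := (hq.prod_mem_iff).1 hcon
    exact hvq h hh h7
  have hDp : 0 < D := by
    rw [hD]
    exact Nat.mul_pos hD0 (Finset.card_pos.2 ⟨1, h1I⟩)
  obtain ⟨u, hue'⟩ : ∃ u : K, u = s / z j ^ D := ⟨_, rfl⟩
  have hu' : u ∈ Ch A z j := by rw [hue']; exact hu
  have hu0 : u ≠ 0 := by
    rw [hue']
    exact div_ne_zero hs0 (pow_ne_zero _ hzj)
  have huq' : (⟨u, hu'⟩ : Ch A z j) ∉ q := by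
    have : (⟨u, hu'⟩ : Ch A z j) = ⟨s / z j ^ D, hu⟩ := Subtype.ext hue'
    rw [this]
    exact huq
  have hg : u * f2 ∈ Ch A z j := (Ch A z j).mul_mem hu' hf2
  have hf : f0 * (u * f2) ∈ Ch A z j := (Ch A z j).mul_mem hf0 hg
  have hle : lc (Ch A z j) f0 hf0 ≤ lc (Ch A z j) (f0 * (u * f2)) hf := by
    rw [lc_lc hf0 hg]
    exact le_lc _ _ _
  refine ⟨D, f0 * (u * f2), hf, hDp, ?_, s, n, fun i => ⟨y i, hle (y i).2⟩, ?_, hs0, hsF,
    fun i => hsy i, ?_, trivial, fun _ => trivial, ?_⟩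
  · have e : (⟨f0 * (u * f2), hf⟩ : Ch A z j) =
        ⟨f0, hf0⟩ * (⟨u, hu'⟩ * ⟨f2, hf2⟩) := rfl
    rw [e]
    exact hq.mul_notMem hf0q (hq.mul_notMem huq' hf2q)
  · exact h6 k K (Ch A z j) f0 (u * f2) hf0 hg (mul_ne_zero hu0 hf20)
      (lc (Ch A z j) (f0 * (u * f2)) hf) hle (lc_lc hf0 hg) n y het _ fun i => rfl
  · refine ⟨1, ?_⟩
    have e : (f0 * (u * f2)) ^ 1 * (z j ^ D / s) = f0 * f2 := by
      rw [hue', pow_one]
      have := pow_ne_zero D hzj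
      field_simp
    rw [e]
    exact (Ch A z j).mul_mem hf0 hf2
  · rintro g ⟨q', hq', hfq', hgq'⟩
    have h7 : (⟨f2, hf2⟩ : Ch A z j) ∉ q' := by
      intro hcon
      apply hfq'
      have e : (⟨f0 * (u * f2), hf⟩ : Ch A z j) =
        ⟨f0, hf0⟩ * ⟨u, hu'⟩ * ⟨f2, hf2⟩ := Subtype.ext (by
          push_cast
          ring)
      rw [e]
      exact q'.mul_mem_left _ hcon
    have h8 := hf2' q' hq' h7 g hgq'
    exact ⟨hsinv g ((hI g).2 h8), fun i => hy g h8 i⟩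

end Pool.Agent.Helper49.SE
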