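import Pool.Agent.Helper49.SE.Asm3
import Pool.Agent.Helper33.SE.Inertia
import Pool.Agent.Helper33.SE.Spread
import Pool.Agent.Helper38.SE.Cone
import Pool.Agent.Helper59.SE.EtLoc
import Pool.Agent.Helper69.SE.Finite
import Pool.Agent.Helper85.SE.Local

/-!
# Models of the quotients by groups with linear inertia groups
-/

set_option autoImplicit false
set_option linter.unusedSectionVars false

namespace Pool.Agent.Helper49.SE

open Pool.Agent.W559.Mg Pool.Agent.W559.Et Pool.Agent.W559.Wr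

theorem coneG : ConeGStm :=
  Pool.Agent.Helper38.SE.cone Pool.Agent.Helper59.SE.foCh Pool.Agent.Helper33.SE.inCh
    Pool.Agent.Helper59.SE.etLoc

theorem finiteG : FiniteStm :=
  Pool.Agent.Helper69.SE.finite_ (Pool.Agent.Helper85.SE.local_ Pool.Agent.Helper59.SE.foMul
    Pool.Agent.Helper59.SE.foCh Pool.Agent.Helper59.SE.foAct Pool.Agent.Helper33.SE.spreadG
    Pool.Agent.Helper33.SE.inNear Pool.Agent.Helper59.SE.etLoc) Pool.Agent.Helper59.SE.foMul

/-- Models of the quotients by groups with linear inertia groups. -/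
theorem models' {k K : Type} [Field k] [Field K] [Algebra k K] {N : ℕ} {G : Type} [Group G]
    [Finite G] (p : ℕ) [Fact p.Prime] [PerfectField k] [CharP k p] (A : Subalgebra k K)
    (hfg : A.FG) (z : Fin (N + 1) → K) (ρ : G →* (K ≃ₐ[k] K)) (act : Act ρ A z)
    (hinj : ∀ g, ρ g = 1 → g = 1) (hsm : ∀ j, Algebra.Smooth k (Ch A z j))
    (htop : IntermediateField.adjoin k ((A : Set K) ∪ {x | ∃ i j, x = z i / z j}) = ⊤)
    (hlin : ∀ (j : Fin (N + 1)) (q : Ideal (Ch A z j)) (hq : q.IsPrime),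
      LinG ρ (locR (Ch A z j) q hq))
    (hin : ∀ (j : Fin (N + 1)) (q : Ideal (Ch A z j)) (hq : q.IsPrime) (H : Subgroup G),
      (∀ h ∈ H, InG ρ (locR (Ch A z j) q hq) h) → ¬ p ^ 2 ∣ Nat.card H)
    (F : IntermediateField k K) (hF : ∀ a, a ∈ F ↔ ∀ g, ρ g a = a) :
    SPMR k F (A.comap F.val) ∧ PMR (A.comap F.val)
      {R | ∃ (d : ℕ) (f : K) (hf : f ∈ Fo A z d), 0 < d ∧ f ≠ 0 ∧ (∀ g, ρ g f = f) ∧
        R = (QK A z hf).comap F.val} :=
  models coneG finiteG (mkCK k K) p A hfg z ρ act hinj hsm htop hlin hin F hF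

end Pool.Agent.Helper49.SE
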