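import Pool.Agent.Helper49.SR.As8

/-!
# Models which dominate the quotient
-/

set_option autoImplicit false
set_option linter.unusedSectionVars false

namespace Pool.Agent.Helper49.SE

open Finset Pool.Agent.W559.Mg Pool.Agent.Helper46.AQ Pool.Agent.Helper49.PQ Pointwise
  Pool.Agent.Helper49.PN Pool.Agent.Helper49.SQ Pool.Agent.W559.Wr Pool.Agent.W559.Et
  Pool.Agent.Helper49.SR

/-- The chart of a model over `A₀`. -/
noncomputable abbrev cw {k K : Type} [Field k] [Field K] [Algebra k K] (A₀ : Subalgebra k K)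
    {I : Type} (w : I → K) (t : I) : Subalgebra k K :=
  A₀ ⊔ Algebra.adjoin k (Set.range fun i => w i / w t)

/-- Homogeneous coordinates of a smooth scheme which is projective over the base, with charts which
contain the sets `W a`. -/
def PMG {k K : Type} [Field k] [Field K] [Algebra k K] (A₀ : Subalgebra k K) {𝒜 : Type}
    (W : 𝒜 → Set K) : Prop :=
  ∃ (I : Type) (_ : Finite I) (w : I → K) (J : Set I), (∀ i, w i ≠ 0) ∧
    (∀ t ∈ J, Algebra.Smooth k (cw A₀ w t)) ∧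
    (∀ V : ValuationSubring K, (∀ a ∈ A₀, a ∈ V) → ∃ t ∈ J, ∀ i, w i / w t ∈ V) ∧
    ∀ t ∈ J, ∃ a, ∀ x ∈ W a, x ∈ cw A₀ w t

/-- An atlas without gradings gives a projective model. -/
theorem pmg_of_MB {k K : Type} [Field k] [Field K] [Algebra k K] (A₀ : Subalgebra k K) {𝒜 : Type}
    {W : 𝒜 → Set K} (hA : ∀ a, ∀ x ∈ A₀, x ∈ W a) {T : Type} [Finite T] {E : ℕ}
    {C : T → Subalgebra k (ML K Unit)} {H : T → K}
    (h : MB {V | ∀ a ∈ A₀, a ∈ V} (⊤ : IntermediateField k K).toSubfield W E C H) :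
    PMG A₀ W := by
  classical
  obtain ⟨G, M, hG, hz1, hz2⟩ := Pool.Agent.W440.ET.core h
  have hGm : ∀ t, ∀ x ∈ G t, mo 0 x ∈ C t := by
    intro t x hx
    have : x ∈ d0 (C t) := by rw [← hG t]; exact Algebra.subset_adjoin hx
    exact this
  let z : T ⊕ (Σ t, {x // x ∈ G t}) → K := Sum.elim (fun t => H t ^ M) (fun p => H p.1 ^ M * p.2.1)
  have hz : ∀ t i, mo 0 (z i / z (Sum.inl t)) ∈ C t := by
    intro t i
    rcases i with t' | p
    · exact hz1 t t'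
    · exact hz2 p.1 p.2.1 p.2.2 t
  have hz0 : ∀ t, z (Sum.inl t) ≠ 0 := fun t => pow_ne_zero M (h.pb.H0 t)
  have hcv : ∀ V : ValuationSubring K, (∀ x ∈ A₀, x ∈ V) →
      ∃ t, ∀ i, z i / z (Sum.inl t) ∈ V := by
    intro V hV
    obtain ⟨t, E', ψ, ht⟩ := h.pb.cv V hV
    refine ⟨t, fun i => ?_⟩
    have h3 := ht.mo (hz t i)
    rw [psi_zero ht.2.1 ht.2.2.1] at h3
    rw [← V.valuation_le_one_iff]
    exact (pow_le_one_iff_of_nonneg zero_le ht.1.ne').1 h3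
  have hch : ∀ t, A₀ ⊔ Algebra.adjoin k (Set.range fun i => z i / z (Sum.inl t)) = d0 (C t) := by
    intro t
    apply le_antisymm
    · refine sup_le ?_ ?_
      · intro x hx
        obtain ⟨a, ha⟩ := h.pb.aa t
        exact (ha x (hA a x hx)).1
      · rw [Algebra.adjoin_le_iff]
        rintro _ ⟨i, rfl⟩
        exact hz t i
    · refine le_trans ?_ le_sup_right
      rw [← hG t, Algebra.adjoin_le_iff]
      intro x hx
      apply Algebra.subset_adjoin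
      refine ⟨Sum.inr ⟨t, x, hx⟩, ?_⟩
      change H t ^ M * x / H t ^ M = x
      have := pow_ne_zero M (h.pb.H0 t)
      field_simp
  have hcw : ∀ t, cw A₀ (fun i : {i // z i ≠ 0} => z i) ⟨Sum.inl t, hz0 t⟩ = d0 (C t) := by
    intro t
    rw [← hch t]
    unfold cw
    congr 1
    apply le_antisymm
    · refine Algebra.adjoin_mono ?_
      rintro _ ⟨n, rfl⟩
      exact ⟨n, rfl⟩
    · refine Algebra.adjoin_le ?_
      rintro _ ⟨i, rfl⟩
      by_cases hi : z i = 0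
      · simp only [hi, zero_div]
        exact Subalgebra.zero_mem _
      · exact Algebra.subset_adjoin ⟨⟨i, hi⟩, rfl⟩
  refine ⟨{i // z i ≠ 0}, inferInstance, fun i => z i, {i : {i // z i ≠ 0} | ∃ t, i.1 = Sum.inl t},
    fun i => i.2, ?_, ?_, ?_⟩
  · rintro ⟨_, hi⟩ ⟨t, rfl⟩
    rw [hcw t]
    exact smooth_d0 (h.sm t)
  · intro V hV
    obtain ⟨t, ht⟩ := hcv V hV
    exact ⟨⟨Sum.inl t, hz0 t⟩, ⟨t, rfl⟩, fun i => ht i⟩
  · rintro ⟨_, hi⟩ ⟨t, rfl⟩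
    obtain ⟨a, ha⟩ := h.pb.aa t
    refine ⟨a, fun x hx => ?_⟩
    rw [hcw t]
    exact (ha x hx).1

/-- A smooth atlas gives a projective model. -/
theorem pmg_of_PFR {k K : Type} [Field k] [Field K] [Algebra k K] {G : Type} [AddCommGroup G]
    (hG : NRR G) (A₀ : Subalgebra k K) {E : ℕ} {T : Type} [Finite T]
    {C : T → Subalgebra k (ML K G)} {H : T → K} (h : PFR {V | ∀ a ∈ A₀, a ∈ V} E C H)
    (hsm : ∀ t, Algebra.Smooth k (C t)) (hA : ∀ t, ∀ a ∈ A₀, mo 0 a ∈ C t) :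
    PMG A₀ (fun t : T => {x : K | mo 0 x ∈ C t}) := by
  obtain ⟨T', hT', E', C', H', h'⟩ := hG.2 k K _ _ _ _ T E C H (h.mb hsm)
  exact pmg_of_MB A₀ (fun t a ha => hA t a ha) h'

section gs

variable {k K : Type} [Field k] [Field K] [Algebra k K] [DecidableEq K] {G : Type} [Group G]
  {ρ : G →* (K ≃ₐ[k] K)} {B : Subalgebra k K} {Φ : Finset K}
  {ι : Type} [Fintype ι] [DecidableEq ι] {A B' : ι → Finset K}
  {K0 F : IntermediateField k K} {t : K}

/-- Invariant homogeneous elements. -/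
structure IH (ρ : G →* (K ≃ₐ[k] K)) (B : Subalgebra k K) (K0 : IntermediateField k K) (t : K)
    (δ : ℕ) (e : K) : Prop where
  δ0 : 0 < δ
  e0 : e ≠ 0
  eB : e ∈ B
  inv : ∀ γ, ρ γ e = e
  hom : e / t ^ δ ∈ K0

/-- The elements of `F` which are integral where `e` is a unit. -/
def We (B : Subalgebra k K) (Z : Finset K) (F : IntermediateField k K) (e : K) : Set F :=
  {x | ∀ (Γ : Type) [LinearOrderedCommGroupWithZero Γ] (v : Valuation K Γ), Pos B Z v → v e = 1 →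
    v (x : K) ≤ 1}

/-- Dominating models from smooth charts. -/
theorem pmg_of_GS [Finite G] (hb : GB ρ B Φ) (hS : GS ρ B Φ A B')
    (h : Scl ρ Φ K0 F t) (ht : t ≠ 0)
    (hsm : ∀ (L : Type) [AddCommGroup L] [IsDomain (ML K L)] (dg : L ≃+ (ι → ℤ))
      (D : Tp Φ A B'), Algebra.Smooth k ↥(CC dg hS.pc D ⊓ Fx ρ L))
    {Y Z1 : Finset K} (hr : RG ρ B Φ Y Z1) (A₀ : Subalgebra k F)
    (hA : ∀ a ∈ A₀, ∀ (Γ : Type) [LinearOrderedCommGroupWithZero Γ] (v : Valuation K Γ),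
      Pos B Φ v → v (a : K) ≤ 1)
    (hY : ∀ W : ValuationSubring K, (∀ a ∈ A₀, (a : K) ∈ W) → ∀ y ∈ Y, y ∈ W) :
    PMG A₀ (fun p : {p : ℕ × K // IH ρ B K0 t p.1 p.2} => We B Φ F p.1.2) := by
  obtain ⟨L, _, dg, hNR⟩ := exists_nrr ι
  have hTU := hNR.1
  have : IsDomain (ML K L) := NoZeroDivisors.to_isDomain _
  obtain ⟨d1, τ, h1, h2, h3, h4, h5⟩ := exists_tau (dg := dg) hS h ht
  have hτ : Tau ρ dg K0 t hS.pc d1 τ := ⟨h1, h2, h3, h4, h5⟩
  obtain ⟨D0, -⟩ := hS.pc.exists_chart (1 : Valuation K (WithZero (Multiplicative ℤ)))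
  have hpf := SR.pf_CF (dg := dg) hb hS h hτ hr A₀ hY ht D0
  obtain ⟨I, hI, w, J, hw, hws, hwV, hwW⟩ := pmg_of_PFR (nrr_prod hNR) A₀ hpf
    (fun D => SR.smooth_CF hb hS h hτ ht D (hsm L dg D)) fun D a ha => by
      rw [SR.mo_zero_CF]
      refine ⟨(mo_mem_CC hS.pc).2 ?_, SR.mo_F_Fx h a.2⟩
      intro Γ _ v hv
      rw [map_zero, nm_zero]
      exact hA a ha Γ v hv.1
  refine ⟨I, hI, w, J, hw, hws, hwV, fun t' ht' => ?_⟩
  obtain ⟨D, hD⟩ := hwW t' ht'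
  obtain ⟨δ, hδ1, -, hδ⟩ := exists_deg hS ht h.hΦ
  refine ⟨⟨(EE Φ A B', hh D none), ⟨EE_pos, hh_ne D _, hS.pc.hh_mem D _, hS.pc.hh_inv D _, ?_⟩⟩,
    fun x hx => hD x ?_⟩
  · have h6 := hδ D none
    rw [hδ1, zpow_natCast] at h6
    exact h6
  · change mo 0 x ∈ SR.CF F hS hτ D
    rw [SR.mo_zero_CF]
    refine ⟨(mo_mem_CC hS.pc).2 ?_, SR.mo_F_Fx h x.2⟩
    intro Γ _ v hv
    rw [map_zero, nm_zero]
    exact hx Γ v hv.1 hv.hn

end gs

/-- Dominating models in terms of the basic data. -/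
theorem pmg_of_SB {k K : Type} [Field k] [Field K] [Algebra k K] [DecidableEq K] {G : Type}
    [Group G] [Fintype G] [DecidableEq G] {ρ : G →* (K ≃ₐ[k] K)} {B : Subalgebra k K}
    {Z : Finset K} [PerfectField k] (hb : SR.SB ρ B Z) (hLL : LLZ ρ B Z) {p : ℕ} [Fact p.Prime]
    [CharP k p] (hG : InP ρ B Z p) {K0 F : IntermediateField k K} {t : K}
    (h : Scl ρ Z K0 F t) (ht : t ≠ 0)
    {Y Z1 : Finset K} (hr : RG ρ B Z Y Z1) (A₀ : Subalgebra k F)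
    (hA : ∀ a ∈ A₀, ∀ (Γ : Type) [LinearOrderedCommGroupWithZero Γ] (v : Valuation K Γ),
      Pos B Z v → v (a : K) ≤ 1)
    (hY : ∀ W : ValuationSubring K, (∀ a ∈ A₀, (a : K) ∈ W) → ∀ y ∈ Y, y ∈ W) :
    PMG A₀ (fun p : {p : ℕ × K // IH ρ B K0 t p.1 p.2} => We B Z F p.1.2) := by
  obtain ⟨ι, _, _, A, B', Ex, N, hS, hcmp⟩ := exists_LS (lf_Fp (ρ := ρ) hb p) (hm_Fp hb p)
    (rB G p)
  exact pmg_of_GS ⟨hb.fam, hb.gen, hb.fr⟩ ⟨hS.pc, hS.hm⟩ h ht
    (fun L _ _ dg D => smooth_inv' (dg := dg) hb hLL hS hcmp D hG) hr A₀ hA hY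

end Pool.Agent.Helper49.SE
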