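import Pool.Agent.Helper49.SE.El0
import Pool.Graph.R_pool_sql_team_seeded_47a924f7.T6.H74.GC.FF

/-!
# Statements: resolutions of open subschemes of quotients
-/

set_option autoImplicit false
set_option linter.unusedSectionVars false

open AlgebraicGeometry CategoryTheory Pool.Agent.T6.H74.GC

namespace Pool.Agent.Helper49.SE

/-- Package RES: resolution by a graph closure; relative version of the library theorem
`Pool.Agent.T6.H74.GC.resolution_of_coordinates`. -/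
def ResStm : Prop := ∀ (k K : Type) [Field k] [Field K] [Algebra k K] (ι : Type) [Finite ι]
  (z : ι → K) (X : Scheme.{0}) (f : X ⟶ Spec (CommRingCat.of k))
  (b : Spec (CommRingCat.of K) ⟶ X)
  (_ : b ≫ f = Spec.map (CommRingCat.ofHom (algebraMap k K))) [QuasiCompact f] [IsSeparated f]
  [AlgebraicGeometry.IsIntegral X] (_ : ∀ i, z i ≠ 0) (T : Set ι) (_ : T.Nonempty)
  (_ : ∀ x : X, ∃ (B : Type) (_ : CommRing B) (β : B →+* K)
      (a : Spec (CommRingCat.of B) ⟶ X), IsAff b β a ∧ x ∈ Set.range a ∧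
      (∀ V : ValuationSubring K, (∀ y, β y ∈ V) → ∃ t ∈ T, ∀ i, z i / z t ∈ V) ∧
      ∀ t ∈ T, ∃ C : Subalgebra k K, Algebra.Smooth k C ∧
        C.toSubring = (Algebra.adjoin k (Set.range fun i => z i / z t)).toSubring ⊔ β.range),
  ∃ (Y : Scheme.{0}) (π : Y ⟶ X), AlgebraicGeometry.IsIntegral Y ∧
      AlgebraicGeometry.IsProper π ∧ AlgebraicGeometry.Smooth (π ≫ f) ∧
      ∃ U : X.Opens, Dense (U : Set X) ∧ IsIso (π ∣_ U)

/-- Package GLOB: the same in terms of the functions on affine open subsets (from RES). -/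
def GlobStm : Prop := ∀ (k K : Type) [Field k] [Field K] [Algebra k K] (ι : Type) [Finite ι]
  (z : ι → K) (_ : ∀ i, z i ≠ 0) (T : Set ι) (_ : T.Nonempty) (A₀ : Subalgebra k K)
  (_ : ∀ V : ValuationSubring K, (∀ a ∈ A₀, a ∈ V) → ∃ t ∈ T, ∀ i, z i / z t ∈ V)
  (X : Scheme.{0}) (f : X ⟶ Spec (CommRingCat.of k)) [QuasiCompact f] [IsSeparated f]
  [AlgebraicGeometry.IsIntegral X] (φ : X.functionField ≃+* K) (_ : IsLinear f φ)
  (_ : ∀ x : X, ∃ U : X.Opens, IsAffineOpen U ∧ x ∈ U ∧ ∃ R : Subalgebra k K, A₀ ≤ R ∧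
    functionsOn φ U = R ∧
    ∀ t ∈ T, Algebra.Smooth k ↥(Algebra.adjoin k (Set.range fun i => z i / z t) ⊔ R)),
  ∃ (Y : Scheme.{0}) (π : Y ⟶ X), AlgebraicGeometry.IsIntegral Y ∧
      AlgebraicGeometry.IsProper π ∧ AlgebraicGeometry.Smooth (π ≫ f) ∧
      ∃ U : X.Opens, Dense (U : Set X) ∧ IsIso (π ∣_ U)

end Pool.Agent.Helper49.SE
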